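import Pool.Agent.Helper11.SB.Pack

/-!
Exponential forms of the two reductions.
-/

set_option autoImplicit false

open MeasureTheory Set Metric Filter Topology
open scoped RealInnerProductSpace ENNReal

namespace Pool.Agent.Helper11.SB

open Pool.Agent.Helper47.KP

lemma half_le_cst (d : ℕ) : 1 / 2 ≤ cst d := by
  unfold cst
  have h1 := integral_wt_pos (d - 3)
  have h2 : ∫ t in (-1 : ℝ)..1, wt (d - 3) t ≤ 2 := by
    have h3 : ∫ t in (-1 : ℝ)..1, wt (d - 3) t ≤ ∫ t in (-1 : ℝ)..1, (1 : ℝ) := by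
      apply intervalIntegral.integral_mono_on (by norm_num)
        ((continuous_wt _).intervalIntegrable _ _) (by simp)
      intro t _
      exact wt_le_one _ _
    norm_num at h3
    exact h3
  rw [one_div]
  exact inv_anti₀ h1 h2

/-- explicit lower bound for the measure of a cap -/
lemma capm_ge (d : ℕ) {c η : ℝ} (hc : 0 ≤ c) (hη : 0 ≤ η) (h1 : c + η ≤ 1) :
    η / 2 * Real.sqrt (1 - (c + η) ^ 2) ^ (d - 3) ≤ capm d c := by
  have hi : ∀ a b : ℝ, IntervalIntegrable (wt (d - 3)) volume a b := fun a b =>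
    (continuous_wt _).intervalIntegrable _ _
  have e1 : η * Real.sqrt (1 - (c + η) ^ 2) ^ (d - 3) ≤ ∫ t in c..(c + η), wt (d - 3) t := by
    have h2 : ∫ t in c..(c + η), Real.sqrt (1 - (c + η) ^ 2) ^ (d - 3) =
        η * Real.sqrt (1 - (c + η) ^ 2) ^ (d - 3) := by
      rw [intervalIntegral.integral_const, smul_eq_mul]; ring
    rw [← h2]
    apply intervalIntegral.integral_mono_on (by linarith) (by simp) (hi _ _)
    intro t ht
    unfold wt
    gcongr
    · linarith [ht.1]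
    · exact ht.2
  have e2 : ∫ t in c..(c + η), wt (d - 3) t ≤ ∫ t in c..1, wt (d - 3) t := by
    rw [← intervalIntegral.integral_add_adjacent_intervals (hi c (c + η)) (hi (c + η) 1)]
    have : 0 ≤ ∫ t in (c + η)..1, wt (d - 3) t :=
      intervalIntegral.integral_nonneg h1 fun t _ => wt_nonneg _ _
    linarith
  have e3 : 0 ≤ η * Real.sqrt (1 - (c + η) ^ 2) ^ (d - 3) := by positivity
  unfold capm
  have h4 := half_le_cst d
  calc η / 2 * Real.sqrt (1 - (c + η) ^ 2) ^ (d - 3)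
      = 1 / 2 * (η * Real.sqrt (1 - (c + η) ^ 2) ^ (d - 3)) := by ring
    _ ≤ cst d * ∫ t in c..1, wt (d - 3) t :=
        mul_le_mul h4 (e1.trans e2) e3 (by linarith)

lemma eventually_pow_le {a b q : ℝ} (ha : 0 ≤ a) (hab : a < b) (hq : 0 < q) :
    ∀ᶠ n : ℕ in atTop, a ^ n ≤ q * b ^ n := by
  have hb : 0 < b := by linarith
  have h1 : Tendsto (fun n : ℕ => (a / b) ^ n) atTop (𝓝 0) :=
    tendsto_pow_atTop_nhds_zero_of_lt_one (by positivity) (by rw [div_lt_one hb]; exact hab)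
  filter_upwards [h1.eventually (gt_mem_nhds hq)] with n hn
  rw [div_pow, div_lt_iff₀ (by positivity)] at hn
  exact hn.le

/-- exponential lower bound for the measure of a cap -/
lemma capm_eventually {c ρ : ℝ} (hc : 0 ≤ c) (hρ : 0 ≤ ρ) (h : ρ ^ 2 + c ^ 2 < 1) :
    ∀ᶠ d : ℕ in atTop, ρ ^ d ≤ capm d c := by
  obtain ⟨η, hη, hη1⟩ : ∃ η : ℝ, 0 < η ∧ ρ ^ 2 + (c + η) ^ 2 < 1 := by
    have h1 : Tendsto (fun η : ℝ => ρ ^ 2 + (c + η) ^ 2) (𝓝[>] 0) (𝓝 (ρ ^ 2 + (c + 0) ^ 2)) := by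
      apply Tendsto.mono_left _ nhdsWithin_le_nhds
      apply Continuous.tendsto
      fun_prop
    rw [add_zero] at h1
    have h2 := (h1.eventually (gt_mem_nhds h)).and self_mem_nhdsWithin
    obtain ⟨η, h3, h4⟩ := h2.exists
    exact ⟨η, h4, h3⟩
  set b := Real.sqrt (1 - (c + η) ^ 2) with hb
  have hρb : ρ < b := by
    rw [hb]
    apply Real.lt_sqrt_of_sq_lt
    linarith
  have hb1 : b ≤ 1 := by
    rw [hb, Real.sqrt_le_one]
    nlinarith [sq_nonneg (c + η)]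
  have hcη : c + η ≤ 1 := by nlinarith [sq_nonneg ρ]
  filter_upwards [eventually_pow_le hρ hρb (show 0 < η / 2 by positivity)] with d hd
  refine hd.trans ((mul_le_mul_of_nonneg_left ?_ (by positivity)).trans
    (capm_ge d hc hη.le hcη))
  exact pow_le_pow_of_le_one (by positivity) hb1 (by omega)

/-- **Exponential form of the cap reduction.** -/
theorem codes_of_codes {s c κ κ' : ℝ} (hs : s < 1) (hc0 : 0 ≤ c) (hc : c < 1)
    (H : ∀ᶠ d : ℕ in atTop, ∀ C : Finset (EuclideanSpace ℝ (Fin d)),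
      IsCode d ((s - c ^ 2) / (1 - c ^ 2)) C → (C.card : ℝ) ≤ 2 ^ (κ * d))
    (hκ : κ - Real.logb 2 (1 - c ^ 2) / 2 < κ') :
    ∀ᶠ d : ℕ in atTop, ∀ C : Finset (EuclideanSpace ℝ (Fin d)),
      IsCode d s C → (C.card : ℝ) ≤ 2 ^ (κ' * d) := by
  have hc2 : 0 < 1 - c ^ 2 := by nlinarith
  set ρ : ℝ := 2 ^ (κ - κ') with hρ
  have hρ0 : 0 < ρ := by positivity
  have hρ1 : ρ ^ 2 + c ^ 2 < 1 := by
    have h1 : ρ ^ 2 < 1 - c ^ 2 := by
      rw [hρ, ← Real.rpow_natCast, ← Real.rpow_mul (by norm_num)]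
      rw [← Real.lt_logb_iff_rpow_lt (by norm_num) hc2]
      push_cast
      linarith
    linarith
  filter_upwards [H, capm_eventually hc0 hρ0.le hρ1, eventually_ge_atTop 3] with d h1 h2 hd C hC
  have h3 := cap_reduction hd hs hc0 hc h1 hC
  have h4 : (C.card : ℝ) * ρ ^ d ≤ 2 ^ (κ * d) :=
    (mul_le_mul_of_nonneg_left h2 (Nat.cast_nonneg _)).trans h3
  rw [← le_div_iff₀ (by positivity)] at h4
  refine h4.trans (le_of_eq ?_)
  rw [hρ, ← Real.rpow_natCast, ← Real.rpow_mul (by norm_num), ← Real.rpow_sub (by norm_num)]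
  congr 1
  ring

/-- **Exponential form of the packing bound.** -/
theorem packing_of_codes {σ κ κ' : ℝ} (hσ : 0 < σ)
    (H : ∀ᶠ d : ℕ in atTop, ∀ C : Finset (EuclideanSpace ℝ (Fin d)),
      IsCode d (1 - 2 * σ ^ 2) C → (C.card : ℝ) ≤ 2 ^ (κ * d))
    (hκ : κ + Real.logb 2 σ < κ') :
    ∀ᶠ n : ℕ in atTop, ∀ (X : Set (EuclideanSpace ℝ (Fin n))) (r : ℝ), 0 < r →
      X.PairwiseDisjoint (fun x => ball x r) →
      upDens (⋃ x ∈ X, ball x r) ≤ ENNReal.ofReal (2 ^ (κ' * n)) := by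
  have H1 := (tendsto_add_atTop_nat 1).eventually H
  set a : ℝ := 2 ^ (κ + Real.logb 2 σ) with ha
  set b : ℝ := 2 ^ κ' with hb
  have hab : a < b := by
    rw [ha, hb]
    exact Real.rpow_lt_rpow_of_exponent_lt (by norm_num) hκ
  have ha0 : 0 < a := by positivity
  filter_upwards [H1, eventually_pow_le ha0.le hab (show (0 : ℝ) < 2 ^ (-κ) by positivity)]
    with n h1 h2 X r hr hX
  refine (packing_bound hσ hr h1 hX).trans (ENNReal.ofReal_le_ofReal ?_)
  have h3 : (2 : ℝ) ^ (κ * ((n + 1 : ℕ) : ℝ)) * σ ^ n = 2 ^ κ * a ^ n := by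
    rw [ha, Real.rpow_add (by norm_num), Real.rpow_logb (by norm_num) (by norm_num) hσ, mul_pow,
      ← Real.rpow_natCast, ← Real.rpow_natCast, ← Real.rpow_mul (by norm_num), ← mul_assoc,
      ← Real.rpow_add (by norm_num)]
    push_cast
    ring_nf
  rw [h3]
  calc (2 : ℝ) ^ κ * a ^ n ≤ 2 ^ κ * (2 ^ (-κ) * b ^ n) := by gcongr
    _ = b ^ n := by
        rw [← mul_assoc, ← Real.rpow_add (by norm_num)]; simp
    _ = 2 ^ (κ' * n) := by
        rw [hb, ← Real.rpow_natCast, ← Real.rpow_mul (by norm_num)]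

end Pool.Agent.Helper11.SB
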