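import Pool.Agent.Helper11.SB.Kiss

/-!
From helper82's `sphere_bound` and helper93's `klt_asymp` to the exponent of the kissing numbers.
-/

set_option autoImplicit false

open MeasureTheory Set Metric Filter Topology
open scoped RealInnerProductSpace

namespace Pool.Agent.Helper11.SB

/-- translating codes in `EuclideanSpace` to finite sets of functions -/
lemma code_fun {D : ℕ} {s : ℝ} {C : Finset (EuclideanSpace ℝ (Fin D))} (hC : IsCode D s C) :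
    ∃ C' : Finset (Fin D → ℝ), C'.card = C.card ∧ (∀ x ∈ C', ∑ i, x i ^ 2 = 1) ∧
      ∀ x ∈ C', ∀ y ∈ C', x ≠ y → ∑ i, x i * y i ≤ s := by
  classical
  have hinj : Function.Injective (fun x : EuclideanSpace ℝ (Fin D) => (WithLp.ofLp x : Fin D → ℝ)) :=
    WithLp.ofLp_injective 2
  refine ⟨C.image fun x => (WithLp.ofLp x : Fin D → ℝ), Finset.card_image_of_injective _ hinj,
    ?_, ?_⟩
  · intro x' hx'
    obtain ⟨x, hx, rfl⟩ := Finset.mem_image.1 hx'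
    have h := EuclideanSpace.real_norm_sq_eq x
    rw [hC.1 x hx] at h
    rw [← h]; norm_num
  · intro x' hx' y' hy' hne
    obtain ⟨x, hx, rfl⟩ := Finset.mem_image.1 hx'
    obtain ⟨y, hy, rfl⟩ := Finset.mem_image.1 hy'
    have hxy : x ≠ y := fun h => hne (by rw [h])
    have h := hC.2 x hx y hy hxy
    rw [PiLp.inner_apply] at h
    refine le_trans (le_of_eq ?_) h
    refine Finset.sum_congr rfl fun i _ => ?_
    simp [mul_comm]

/-- the final step, from a bound for codes at `60°` -/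
theorem kissing_of_half {κ : ℝ}
    (H : ∀ᶠ D : ℕ in atTop, ∀ C : Finset (EuclideanSpace ℝ (Fin D)),
      IsCode D (1 / 2) C → (C.card : ℝ) ≤ 2 ^ (κ * D)) :
    (∀ᶠ d : ℕ in atTop, (tau d : ℝ) ≤ 2 ^ (κ * d)) ∧
    limsup (fun d : ℕ => Real.logb 2 (tau d) / d) atTop ≤ κ := by
  have H3 : ∀ᶠ d : ℕ in atTop, (tau d : ℝ) ≤ 2 ^ (κ * d) := by
    filter_upwards [H] with d hd
    exact tau_le hd
  refine ⟨H3, ?_⟩
  apply limsup_le_of_le
  · apply IsBoundedUnder.isCoboundedUnder_le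
    refine ⟨0, ?_⟩
    rw [eventually_map]
    filter_upwards [H, eventually_ge_atTop 1] with d hd hd1
    have h1 := one_le_tau hd1 hd
    have h2 : 0 ≤ Real.logb 2 (tau d) := Real.logb_nonneg (by norm_num) (by exact_mod_cast h1)
    positivity
  · filter_upwards [H, H3, eventually_ge_atTop 1] with d hd h3 hd1
    have h1 := one_le_tau hd1 hd
    have hd0 : (0 : ℝ) < d := by exact_mod_cast hd1
    rw [div_le_iff₀ hd0]
    rw [Real.logb_le_iff_le_rpow (by norm_num) (by exact_mod_cast h1)]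
    exact h3

/-- `sphere_bound` (helper82) and `klt_asymp` (helper93) as hypotheses -/
theorem kissing_of_parts {κ : ℝ} (cc : ℕ → ℕ → ℕ → ℝ) (kap : ℕ → ℕ → ℝ)
    (sphere_bound : ∀ (D m lo T : ℕ) (_ : 3 ≤ D) (_ : 2 ≤ m) (_ : m ≤ lo) (_ : lo ≤ T) (b : ℕ → ℝ)
      (_ : ∀ j, 0 ≤ b j) (_ : ∃ j, 0 < b j) (_ : ∀ j, b j ≠ 0 → lo ≤ j ∧ j ≤ T)
      (s s' : ℝ) (_ : s < s') (_ : s ≤ 1)
      (_ : ∀ j, lo ≤ j → j ≤ T →
        s' * b j ≤ b (j - 1) / j + b (j + 1) * cc D m (j - m) ^ 2 / kap D j)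
      (C : Finset (Fin D → ℝ)) (_ : ∀ x ∈ C, ∑ i, x i ^ 2 = 1)
      (_ : ∀ x ∈ C, ∀ y ∈ C, x ≠ y → ∑ i, x i * y i ≤ s),
      (C.card : ℝ) * (s' - s) * ((Nat.choose (D + m - 1) m : ℝ) - Nat.choose (D + m - 2) (m - 1) -
        Nat.choose (D + m - 3) (m - 2)) ≤ (1 - s) * ∑ j ∈ Finset.Icc lo T,
          (Nat.choose (D + j - 1) j : ℝ))
    (dim_ge : ∀ (D m : ℕ), 3 ≤ D → 2 ≤ m → (Nat.choose (D - 1) m : ℝ) ≤
      (Nat.choose (D + m - 1) m : ℝ) - Nat.choose (D + m - 2) (m - 1) -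
        Nat.choose (D + m - 3) (m - 2))
    (klt_asymp : ∀ᶠ D : ℕ in atTop, ∃ (m lo T : ℕ) (b : ℕ → ℝ) (s' : ℝ), 2 ≤ m ∧ m ≤ lo ∧ lo ≤ T ∧
      (∀ j, 0 ≤ b j) ∧ (∃ j, 0 < b j) ∧ (∀ j, b j ≠ 0 → lo ≤ j ∧ j ≤ T) ∧ 1 / 2 < s' ∧
      (∀ j, lo ≤ j → j ≤ T →
        s' * b j ≤ b (j - 1) / j + b (j + 1) * cc D m (j - m) ^ 2 / kap D j) ∧
      0 < Nat.choose (D - 1) m ∧
      (1 / 2 : ℝ) * ∑ j ∈ Finset.Icc lo T, (Nat.choose (D + j - 1) j : ℝ) ≤
        2 ^ (κ * D) * ((s' - 1 / 2) * Nat.choose (D - 1) m)) :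
    (∀ᶠ d : ℕ in atTop, (tau d : ℝ) ≤ 2 ^ (κ * d)) ∧
    limsup (fun d : ℕ => Real.logb 2 (tau d) / d) atTop ≤ κ := by
  apply kissing_of_half
  filter_upwards [klt_asymp, eventually_ge_atTop 3] with D hD hD3 C hC
  obtain ⟨m, lo, T, b, s', hm, hmlo, hloT, hb, hpos, hsupp, hs', hrec, hch, hfin⟩ := hD
  obtain ⟨C', hcard, h1, h2⟩ := code_fun hC
  have h3 := sphere_bound D m lo T hD3 hm hmlo hloT b hb hpos hsupp (1 / 2) s' hs' (by norm_num)
    hrec C' h1 h2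
  rw [hcard] at h3
  have h4 := dim_ge D m hD3 hm
  have hq : (0 : ℝ) < (s' - 1 / 2) * Nat.choose (D - 1) m := by
    have : (0 : ℝ) < Nat.choose (D - 1) m := by exact_mod_cast hch
    have : 0 < s' - 1 / 2 := by linarith
    positivity
  have h5 : (C.card : ℝ) * ((s' - 1 / 2) * Nat.choose (D - 1) m) ≤
      2 ^ (κ * D) * ((s' - 1 / 2) * Nat.choose (D - 1) m) := by
    calc (C.card : ℝ) * ((s' - 1 / 2) * Nat.choose (D - 1) m)
        = (C.card : ℝ) * (s' - 1 / 2) * Nat.choose (D - 1) m := by ring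
      _ ≤ (C.card : ℝ) * (s' - 1 / 2) * ((Nat.choose (D + m - 1) m : ℝ) -
          Nat.choose (D + m - 2) (m - 1) - Nat.choose (D + m - 3) (m - 2)) := by
          apply mul_le_mul_of_nonneg_left h4
          have : 0 ≤ s' - 1 / 2 := by linarith
          positivity
      _ ≤ (1 - 1 / 2) * ∑ j ∈ Finset.Icc lo T, (Nat.choose (D + j - 1) j : ℝ) := h3
      _ = (1 / 2 : ℝ) * ∑ j ∈ Finset.Icc lo T, (Nat.choose (D + j - 1) j : ℝ) := by norm_num
      _ ≤ _ := hfin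
  exact le_of_mul_le_mul_right h5 hq

end Pool.Agent.Helper11.SB
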