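import Pool.Agent.Helper11.SB.LP

/-!
The reduction of spherical codes with a small angle to spherical codes with a larger angle in the
same dimension (averaging over caps; Kabatiansky-Levenshtein, Levenshtein).
-/

set_option autoImplicit false

open MeasureTheory Set Metric Polynomial
open scoped RealInnerProductSpace ENNReal

namespace Pool.Agent.Helper11.SB

open Pool.Agent.Helper47.KP

variable {d : ℕ}

/-- `C` is a spherical code in `ℝ^d` all whose inner products are at most `s`. -/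
def IsCode (d : ℕ) (s : ℝ) (C : Finset (EuclideanSpace ℝ (Fin d))) : Prop :=
  (∀ x ∈ C, ‖x‖ = 1) ∧ ∀ x ∈ C, ∀ y ∈ C, x ≠ y → ⟪x, y⟫ ≤ s

/-- the normalised measure of the cap `{z : ⟨x, z⟩ ≥ c}` -/
noncomputable def capm (d : ℕ) (c : ℝ) : ℝ := cst d * ∫ t in c..1, wt (d - 3) t

/-- lifting a point of the cap around `z` to the hemisphere -/
noncomputable def lift (z : EE d) (c : ℝ) (x : EE d) : EE d :=
  (Real.sqrt (1 - c ^ 2))⁻¹ • (x + (Real.sqrt (⟪x, z⟫ ^ 2 - c ^ 2) - ⟪x, z⟫) • z)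

lemma inner_lift {z x y : EE d} {c : ℝ} (hz : ‖z‖ = 1) (hc : c ^ 2 < 1) :
    ⟪lift z c x, lift z c y⟫ = (⟪x, y⟫ - ⟪x, z⟫ * ⟪y, z⟫ +
      Real.sqrt (⟪x, z⟫ ^ 2 - c ^ 2) * Real.sqrt (⟪y, z⟫ ^ 2 - c ^ 2)) / (1 - c ^ 2) := by
  have h1 : (0 : ℝ) < 1 - c ^ 2 := by linarith
  have hs : Real.sqrt (1 - c ^ 2) ≠ 0 := (Real.sqrt_pos.2 h1).ne'
  have hs2 : Real.sqrt (1 - c ^ 2) * Real.sqrt (1 - c ^ 2) = 1 - c ^ 2 := Real.mul_self_sqrt h1.le
  have hzz : ⟪z, z⟫ = 1 := by rw [real_inner_self_eq_norm_sq, hz]; norm_num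
  unfold lift
  rw [real_inner_smul_left, real_inner_smul_right, inner_add_left, inner_add_right,
    inner_add_right, real_inner_smul_left, real_inner_smul_right, real_inner_smul_left,
    real_inner_smul_right, hzz, real_inner_comm y z]
  rw [real_inner_comm z y]
  generalize Real.sqrt (1 - c ^ 2) = r at hs hs2 ⊢
  rw [← hs2]
  field_simp
  ring

lemma norm_lift {z x : EE d} {c : ℝ} (hz : ‖z‖ = 1) (hx : ‖x‖ = 1) (hc : c ^ 2 < 1)
    (hc0 : 0 ≤ c) (hxz : c ≤ ⟪x, z⟫) : ‖lift z c x‖ = 1 := by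
  have h1 : (0 : ℝ) < 1 - c ^ 2 := by linarith
  have h2 : ‖lift z c x‖ ^ 2 = 1 := by
    rw [← real_inner_self_eq_norm_sq, inner_lift hz hc, real_inner_self_eq_norm_sq, hx,
      Real.mul_self_sqrt (by nlinarith)]
    rw [div_eq_one_iff_eq h1.ne']
    ring
  have h3 : 0 ≤ ‖lift z c x‖ := norm_nonneg _
  nlinarith

lemma inner_lift_le {z x y : EE d} {c s : ℝ} (hz : ‖z‖ = 1) (hc : c ^ 2 < 1) (hc0 : 0 ≤ c)
    (hxz : c ≤ ⟪x, z⟫) (hyz : c ≤ ⟪y, z⟫) (hxy : ⟪x, y⟫ ≤ s) :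
    ⟪lift z c x, lift z c y⟫ ≤ (s - c ^ 2) / (1 - c ^ 2) := by
  have h1 : (0 : ℝ) < 1 - c ^ 2 := by linarith
  rw [inner_lift hz hc]
  apply div_le_div_of_nonneg_right _ h1.le
  set a := ⟪x, z⟫ with ha
  set b := ⟪y, z⟫ with hb
  have hab : c ^ 2 ≤ a * b := by nlinarith
  have key : Real.sqrt (a ^ 2 - c ^ 2) * Real.sqrt (b ^ 2 - c ^ 2) ≤ a * b - c ^ 2 := by
    rw [← Real.sqrt_mul (by nlinarith)]
    apply Real.sqrt_le_iff.2
    refine ⟨by linarith, ?_⟩
    nlinarith [mul_nonneg (sq_nonneg c) (sq_nonneg (a - b))]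
  linarith

/-- the number of points of a code in a cap -/
lemma card_cap_le {s c B : ℝ} (hs : s < 1) (hc : c ^ 2 < 1) (hc0 : 0 ≤ c)
    (hB : ∀ C' : Finset (EuclideanSpace ℝ (Fin d)), IsCode d ((s - c ^ 2) / (1 - c ^ 2)) C' →
      (C'.card : ℝ) ≤ B) {C : Finset (EuclideanSpace ℝ (Fin d))} (hC : IsCode d s C)
    (z : EuclideanSpace ℝ (Fin d)) (hz : ‖z‖ = 1) [DecidablePred fun x : EE d => c ≤ ⟪x, z⟫] :
    ((C.filter fun x => c ≤ ⟪x, z⟫).card : ℝ) ≤ B := by
  classical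
  have h1 : (0 : ℝ) < 1 - c ^ 2 := by linarith
  have hs' : (s - c ^ 2) / (1 - c ^ 2) < 1 := by rw [div_lt_one h1]; linarith
  have hinj : Set.InjOn (lift z c) (C.filter fun x => c ≤ ⟪x, z⟫ : Finset (EE d)) := by
    intro x hx y hy hxy
    rw [Finset.mem_coe, Finset.mem_filter] at hx hy
    by_contra hne
    have h2 := inner_lift_le hz hc hc0 hx.2 hy.2 (hC.2 x hx.1 y hy.1 hne)
    rw [hxy, real_inner_self_eq_norm_sq, norm_lift hz (hC.1 y hy.1) hc hc0 hy.2] at h2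
    linarith
  rw [← Finset.card_image_of_injOn hinj]
  apply hB
  constructor
  · intro x' hx'
    obtain ⟨x, hx, rfl⟩ := Finset.mem_image.1 hx'
    rw [Finset.mem_filter] at hx
    exact norm_lift hz (hC.1 x hx.1) hc hc0 hx.2
  · intro x' hx' y' hy' hne
    obtain ⟨x, hx, rfl⟩ := Finset.mem_image.1 hx'
    obtain ⟨y, hy, rfl⟩ := Finset.mem_image.1 hy'
    rw [Finset.mem_filter] at hx hy
    apply inner_lift_le hz hc hc0 hx.2 hy.2 (hC.2 x hx.1 y hy.1 _)
    rintro rfl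
    exact hne rfl

lemma integral_cap [NeZero d] (hd : 3 ≤ d) (x : Sph d) {c : ℝ} (hc : -1 ≤ c) (hc1 : c ≤ 1) :
    ∫ z : Sph d, (if c ≤ ⟪(x : EE d), (z : EE d)⟫ then (1 : ℝ) else 0) ∂(sig d) = capm d c := by
  have hm : Measurable (fun t : ℝ => if c ≤ t then (1 : ℝ) else 0) :=
    Measurable.ite measurableSet_Ici measurable_const measurable_const
  rw [integral_zonal hd x hm]
  unfold capm
  congr 1
  have hi : ∀ a b : ℝ, IntervalIntegrable (fun t => (if c ≤ t then (1 : ℝ) else 0) * wt (d - 3) t)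
      volume a b := by
    intro a b
    apply IntervalIntegrable.mono_fun ((continuous_wt (d - 3)).intervalIntegrable a b)
    · exact (hm.mul (continuous_wt _).measurable).aestronglyMeasurable
    · refine Filter.Eventually.of_forall fun t => ?_
      show ‖(if c ≤ t then (1 : ℝ) else 0) * wt (d - 3) t‖ ≤ ‖wt (d - 3) t‖
      rw [Real.norm_eq_abs, Real.norm_eq_abs, abs_mul]
      have : |if c ≤ t then (1 : ℝ) else 0| ≤ 1 := by split_ifs <;> norm_num
      nlinarith [abs_nonneg (wt (d - 3) t)]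
  rw [← intervalIntegral.integral_add_adjacent_intervals (hi (-1) c) (hi c 1)]
  have e1 : ∫ t in (-1 : ℝ)..c, (if c ≤ t then (1 : ℝ) else 0) * wt (d - 3) t = 0 := by
    rw [intervalIntegral.integral_of_le hc, integral_Ioc_eq_integral_Ioo]
    rw [setIntegral_congr_fun (g := fun _ => (0 : ℝ)) measurableSet_Ioo]
    · simp
    · intro t ht
      simp [not_le.2 ht.2]
  have e2 : ∫ t in c..1, (if c ≤ t then (1 : ℝ) else 0) * wt (d - 3) t =
      ∫ t in c..1, wt (d - 3) t := by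
    apply intervalIntegral.integral_congr
    intro t ht
    rw [uIcc_of_le hc1] at ht
    simp [ht.1]
  rw [e1, e2, zero_add]

/-- **Reduction to a larger angle.** -/
theorem cap_reduction (hd : 3 ≤ d) {s c B : ℝ} (hs : s < 1) (hc0 : 0 ≤ c) (hc : c < 1)
    (hB : ∀ C' : Finset (EuclideanSpace ℝ (Fin d)), IsCode d ((s - c ^ 2) / (1 - c ^ 2)) C' →
      (C'.card : ℝ) ≤ B) {C : Finset (EuclideanSpace ℝ (Fin d))} (hC : IsCode d s C) :
    (C.card : ℝ) * capm d c ≤ B := by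
  classical
  have : NeZero d := ⟨by omega⟩
  have hc2 : c ^ 2 < 1 := by nlinarith
  have h1 : ∀ z : Sph d, (∑ x ∈ C, if c ≤ ⟪x, (z : EE d)⟫ then (1 : ℝ) else 0) ≤ B := by
    intro z
    have := card_cap_le hs hc2 hc0 hB hC (z : EE d) (norm_S z)
    rw [Finset.sum_ite, Finset.sum_const_zero, add_zero, Finset.sum_const, nsmul_eq_mul, mul_one]
    exact this
  have h2 : ∀ x ∈ C, ∫ z : Sph d, (if c ≤ ⟪x, (z : EE d)⟫ then (1 : ℝ) else 0) ∂(sig d) =
      capm d c := by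
    intro x hx
    exact integral_cap hd ⟨x, by simpa using hC.1 x hx⟩ (by linarith) hc.le
  have hint : ∀ x ∈ C, Integrable (fun z : Sph d => if c ≤ ⟪x, (z : EE d)⟫ then (1 : ℝ) else 0)
      (sig d) := by
    intro x hx
    apply Integrable.of_bound (C := 1)
    · apply Measurable.aestronglyMeasurable
      exact Measurable.ite (measurableSet_le measurable_const
        (continuous_inner_S x).measurable) measurable_const measurable_const
    · refine Filter.Eventually.of_forall fun z => ?_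
      split_ifs <;> norm_num
  have h3 : ∫ z : Sph d, (∑ x ∈ C, if c ≤ ⟪x, (z : EE d)⟫ then (1 : ℝ) else 0) ∂(sig d) =
      C.card * capm d c := by
    rw [integral_finsetSum _ hint, Finset.sum_congr rfl h2, Finset.sum_const, nsmul_eq_mul]
  rw [← h3]
  calc ∫ z : Sph d, (∑ x ∈ C, if c ≤ ⟪x, (z : EE d)⟫ then (1 : ℝ) else 0) ∂(sig d)
      ≤ ∫ z : Sph d, B ∂(sig d) :=
        integral_mono (integrable_finsetSum _ hint) (integrable_const _) h1
    _ = B := by simp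

end Pool.Agent.Helper11.SB
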