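import Pool.Agent.Helper11.SB.Bridge
import Pool.Agent.Helper82.FP.Fin
import Pool.Agent.Helper93.KLA

/-!
Assembly: the exponent of the kissing numbers is at most `1496/3765 < 0.39735`.
-/

set_option autoImplicit false

open MeasureTheory Set Metric Filter Topology
open scoped RealInnerProductSpace ENNReal

namespace Pool.Agent.Helper11.SB

lemma cc_eq (D m k : ℕ) : Pool.Agent.Helper93.KLA.cc D m k = Pool.Agent.Helper82.FP.cc D m k := rfl

lemma kap_eq (D j : ℕ) : Pool.Agent.Helper93.KLA.kap D j = Pool.Agent.Helper82.FP.kap D j := rfl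

/-- spherical codes with inner products at most `s`: the exponent
`(1+τ) log (1+τ) - τ log τ - H(ν)`. -/
theorem codes_exp {s κ τ ν : ℝ} (hs0 : 0 ≤ s) (hs1 : s ≤ 1) (hν : 0 < ν) (hν2 : ν ≤ 1 / 2)
    (hντ : ν < τ)
    (hcond : s * ((1 + 2 * τ) * Real.sqrt (τ * (1 + τ))) < 2 * ((τ - ν) * (1 + τ + ν)))
    (hκ : Pool.Agent.Helper93.KLA.Aup τ < 2 ^ κ * Pool.Agent.Helper93.KLA.Blo ν) :
    ∀ᶠ D : ℕ in atTop, ∀ C : Finset (EuclideanSpace ℝ (Fin D)),
      IsCode D s C → (C.card : ℝ) ≤ 2 ^ (κ * D) := by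
  filter_upwards [Pool.Agent.Helper93.KLA.asymp hs0 hs1 hν hν2 hντ hcond hκ,
    eventually_ge_atTop 3] with D hD hD3 C hC
  obtain ⟨m, lo, T, b, s', hm, hmlo, hloT, hb, hpos, hsupp, hs', hrec, hch, hfin⟩ := hD
  obtain ⟨C', hcard, h1, h2⟩ := code_fun hC
  have h3 := Pool.Agent.Helper82.FP.sphere_bound D m lo T hD3 hm hmlo hloT b hb hpos hsupp s s' hs'
    hs1 hrec C' h1 h2
  rw [hcard] at h3
  have hmD : m < D := by
    by_contra h
    rw [Nat.choose_eq_zero_of_lt (by omega)] at hch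
    simp at hch
  have h4 := Pool.Agent.Helper93.KLA.choose_le_harm hm hmD
  have hq : (0 : ℝ) < (s' - s) * ((D - 1).choose m : ℝ) := by
    have : 0 < s' - s := by linarith
    positivity
  have h5 : (C.card : ℝ) * ((s' - s) * ((D - 1).choose m : ℝ)) ≤
      2 ^ (κ * D) * ((s' - s) * ((D - 1).choose m : ℝ)) := by
    calc (C.card : ℝ) * ((s' - s) * ((D - 1).choose m : ℝ))
        = (C.card : ℝ) * (s' - s) * ((D - 1).choose m : ℝ) := by ring
      _ ≤ (C.card : ℝ) * (s' - s) * ((Nat.choose (D + m - 1) m : ℝ) -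
          Nat.choose (D + m - 2) (m - 1) - Nat.choose (D + m - 3) (m - 2)) := by
          apply mul_le_mul_of_nonneg_left h4
          have : 0 ≤ s' - s := by linarith
          positivity
      _ ≤ (1 - s) * ∑ j ∈ Finset.Icc lo T, (Nat.choose (D + j - 1) j : ℝ) := h3
      _ ≤ _ := hfin
  exact le_of_mul_le_mul_right h5 hq

/-- codes at 60 degrees -/
theorem codes_sixty : ∀ᶠ D : ℕ in atTop, ∀ C : Finset (EuclideanSpace ℝ (Fin D)),
    IsCode D (1 / 2) C → (C.card : ℝ) ≤ 2 ^ ((1496 / 3765 : ℝ) * D) :=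
  codes_exp (τ := 65 / 753) (ν := 1 / 251) (by norm_num) (by norm_num)
    (by norm_num) (by norm_num) (by norm_num) Pool.Agent.Helper93.KLA.num_cond
    Pool.Agent.Helper93.KLA.num_exp

/-- **The exponent of the kissing numbers.** -/
theorem kissing : (∀ᶠ d : ℕ in atTop, (tau d : ℝ) ≤ 2 ^ ((1496 / 3765 : ℝ) * d)) ∧
    limsup (fun d : ℕ => Real.logb 2 (tau d) / d) atTop ≤ 1496 / 3765 :=
  kissing_of_half codes_sixty

end Pool.Agent.Helper11.SB
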