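import Mathlib

/-!
The Fischer inner product on real polynomials in `n` variables.
-/

set_option autoImplicit false

open Finset MvPolynomial

namespace Pool.Agent.Helper11.SB.Fischer

variable {n : ℕ}

/-- real polynomials in `n` variables -/
abbrev Pol (n : ℕ) := MvPolynomial (Fin n) ℝ

/-- `α!` -/
noncomputable def wt (α : Fin n →₀ ℕ) : ℝ := ∏ i, ((α i).factorial : ℝ)

lemma wt_pos (α : Fin n →₀ ℕ) : 0 < wt α := by
  unfold wt
  exact Finset.prod_pos fun i _ => by exact_mod_cast Nat.factorial_pos _

lemma wt_add_single (α : Fin n →₀ ℕ) (i : Fin n) :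
    wt (α + Finsupp.single i 1) = (α i + 1) * wt α := by
  unfold wt
  rw [← Finset.mul_prod_erase univ _ (Finset.mem_univ i), ← Finset.mul_prod_erase univ
    (fun j => ((α j).factorial : ℝ)) (Finset.mem_univ i)]
  have h1 : ∀ j ∈ univ.erase i, (((α + Finsupp.single i 1 : Fin n →₀ ℕ) j).factorial : ℝ) =
      ((α j).factorial : ℝ) := by
    intro j hj
    rw [Finsupp.add_apply, Finsupp.single_eq_of_ne (Finset.ne_of_mem_erase hj), add_zero]
  rw [Finset.prod_congr rfl h1, Finsupp.add_apply, Finsupp.single_eq_same,
    Nat.factorial_succ]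
  push_cast
  ring

/-- The Fischer inner product `∑ α! f_α g_α`. -/
noncomputable def fis (f g : Pol n) : ℝ := ∑ α ∈ f.support, wt α * coeff α f * coeff α g

lemma fis_eq {f g : Pol n} {s : Finset (Fin n →₀ ℕ)} (hs : f.support ⊆ s) :
    fis f g = ∑ α ∈ s, wt α * coeff α f * coeff α g := by
  unfold fis
  apply Finset.sum_subset hs
  intro α _ h
  rw [notMem_support_iff.1 h]
  ring

lemma fis_eq_right {f g : Pol n} {s : Finset (Fin n →₀ ℕ)} (hs : g.support ⊆ s) :
    fis f g = ∑ α ∈ s, wt α * coeff α f * coeff α g := by
  classical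
  rw [fis_eq (s := f.support ∪ s) subset_union_left]
  symm
  apply Finset.sum_subset subset_union_right
  intro α _ h
  have : coeff α g = 0 := notMem_support_iff.1 fun h2 => h (hs h2)
  rw [this]
  ring

lemma fis_comm (f g : Pol n) : fis f g = fis g f := by
  rw [fis_eq_right (s := g.support) subset_rfl]
  unfold fis
  exact Finset.sum_congr rfl fun α _ => by ring

lemma fis_add_left (f f' g : Pol n) : fis (f + f') g = fis f g + fis f' g := by
  rw [fis_eq_right (s := g.support) subset_rfl, fis_eq_right (s := g.support) subset_rfl,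
    fis_eq_right (s := g.support) subset_rfl, ← Finset.sum_add_distrib]
  exact Finset.sum_congr rfl fun α _ => by rw [coeff_add]; ring

lemma fis_smul_left (c : ℝ) (f g : Pol n) : fis (c • f) g = c * fis f g := by
  rw [fis_eq_right (s := g.support) subset_rfl, fis_eq_right (s := g.support) subset_rfl,
    Finset.mul_sum]
  exact Finset.sum_congr rfl fun α _ => by rw [coeff_smul, smul_eq_mul]; ring

lemma fis_add_right (f g g' : Pol n) : fis f (g + g') = fis f g + fis f g' := by
  rw [fis_comm, fis_add_left, fis_comm g, fis_comm g']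

lemma fis_smul_right (c : ℝ) (f g : Pol n) : fis f (c • g) = c * fis f g := by
  rw [fis_comm, fis_smul_left, fis_comm]

/-- the Fischer product as a bilinear map -/
noncomputable def fisB (n : ℕ) : Pol n →ₗ[ℝ] Pol n →ₗ[ℝ] ℝ :=
  LinearMap.mk₂ ℝ fis fis_add_left (fun c f g => fis_smul_left c f g) fis_add_right
    (fun c f g => fis_smul_right c f g)

@[simp] lemma fisB_apply (f g : Pol n) : fisB n f g = fis f g := rfl

@[simp] lemma fis_zero_left (g : Pol n) : fis 0 g = 0 := by simp [fis]

@[simp] lemma fis_zero_right (f : Pol n) : fis f 0 = 0 := by simp [fis]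

lemma fis_neg_left (f g : Pol n) : fis (-f) g = - fis f g := by
  rw [← neg_one_smul ℝ f, fis_smul_left]; ring

lemma fis_neg_right (f g : Pol n) : fis f (-g) = - fis f g := by
  rw [← neg_one_smul ℝ g, fis_smul_right]; ring

lemma fis_sub_left (f f' g : Pol n) : fis (f - f') g = fis f g - fis f' g := by
  rw [sub_eq_add_neg, fis_add_left, fis_neg_left]; ring

lemma fis_sub_right (f g g' : Pol n) : fis f (g - g') = fis f g - fis f g' := by
  rw [sub_eq_add_neg, fis_add_right, fis_neg_right]; ring

lemma fis_sum_left {ι : Type*} (s : Finset ι) (f : ι → Pol n) (g : Pol n) :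
    fis (∑ a ∈ s, f a) g = ∑ a ∈ s, fis (f a) g := by
  exact map_sum ((fisB n).flip g) f s

lemma fis_sum_right {ι : Type*} (s : Finset ι) (f : Pol n) (g : ι → Pol n) :
    fis f (∑ a ∈ s, g a) = ∑ a ∈ s, fis f (g a) := by
  exact map_sum (fisB n f) g s

lemma fis_self_nonneg (f : Pol n) : 0 ≤ fis f f := by
  unfold fis
  apply Finset.sum_nonneg
  intro α _
  have := wt_pos α
  nlinarith [mul_nonneg this.le (mul_self_nonneg (coeff α f))]

lemma fis_self_eq_zero {f : Pol n} (h : fis f f = 0) : f = 0 := by
  unfold fis at h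
  rw [Finset.sum_eq_zero_iff_of_nonneg] at h
  · by_contra hf
    obtain ⟨α, hα⟩ := support_nonempty.2 hf
    have h1 := h α hα
    have h2 := mem_support_iff.1 hα
    have h3 := wt_pos α
    rw [mul_assoc] at h1
    rcases mul_eq_zero.1 h1 with h4 | h4
    · exact h3.ne' h4
    · exact h2 (mul_self_eq_zero.1 h4)
  · intro α _
    have := wt_pos α
    nlinarith [mul_nonneg this.le (mul_self_nonneg (coeff α f))]

lemma fis_self_pos {f : Pol n} (h : f ≠ 0) : 0 < fis f f :=
  lt_of_le_of_ne (fis_self_nonneg f) fun h2 => h (fis_self_eq_zero h2.symm)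

lemma fis_monomial (α : Fin n →₀ ℕ) (a : ℝ) (g : Pol n) :
    fis (monomial α a) g = wt α * a * coeff α g := by
  classical
  rw [fis_eq (s := {α}) support_monomial_subset, Finset.sum_singleton, coeff_monomial, if_pos rfl]

/-- multiplication by `X i` is adjoint to `∂ i` -/
theorem fis_X_mul (i : Fin n) (f g : Pol n) : fis (X i * f) g = fis f (pderiv i g) := by
  classical
  induction f using MvPolynomial.induction_on' with
  | monomial α a =>
    rw [X, monomial_mul, one_mul, fis_monomial, fis_monomial]
    induction g using MvPolynomial.induction_on' with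
    | monomial β b =>
      rw [pderiv_monomial, coeff_monomial, coeff_monomial, add_comm (Finsupp.single i 1) α]
      by_cases h : β = α + Finsupp.single i 1
      · subst h
        rw [if_pos rfl, if_pos (by rw [add_tsub_cancel_right]), wt_add_single]
        simp only [Finsupp.add_apply, Finsupp.single_eq_same]
        push_cast
        ring
      · rw [if_neg h]
        by_cases h2 : β - Finsupp.single i 1 = α
        · rw [if_pos h2]
          have h3 : β i = 0 := by
            by_contra h4
            apply h
            rw [← h2]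
            ext j
            rw [Finsupp.add_apply, Finsupp.tsub_apply]
            by_cases hj : j = i
            · subst hj
              rw [Finsupp.single_eq_same]
              omega
            · rw [Finsupp.single_eq_of_ne hj]
              simp
          rw [h3]
          simp
        · rw [if_neg h2]
          ring
    | add g g' hg hg' =>
      rw [map_add, coeff_add, coeff_add, mul_add, mul_add, hg, hg']
  | add f f' hf hf' =>
    rw [mul_add, fis_add_left, fis_add_left, hf, hf']

theorem fis_mul_X (i : Fin n) (f g : Pol n) : fis f (X i * g) = fis (pderiv i f) g := by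
  rw [fis_comm, fis_X_mul, fis_comm]

/-- the Laplacian -/
noncomputable def lap (f : Pol n) : Pol n := ∑ i, pderiv i (pderiv i f)

/-- `|z|²` -/
noncomputable def rsq (n : ℕ) : Pol n := ∑ i, X i ^ 2

lemma lap_add (f g : Pol n) : lap (f + g) = lap f + lap g := by
  unfold lap
  rw [← Finset.sum_add_distrib]
  exact Finset.sum_congr rfl fun i _ => by rw [map_add, map_add]

lemma lap_smul (c : ℝ) (f : Pol n) : lap (c • f) = c • lap f := by
  unfold lap
  rw [Finset.smul_sum]
  exact Finset.sum_congr rfl fun i _ => by
    rw [Derivation.map_smul, Derivation.map_smul]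

/-- the Laplacian as a linear map -/
noncomputable def lapL (n : ℕ) : Pol n →ₗ[ℝ] Pol n where
  toFun := lap
  map_add' := lap_add
  map_smul' := lap_smul

/-- multiplication by `|z|²` is adjoint to the Laplacian -/
theorem fis_rsq_mul (f g : Pol n) : fis (rsq n * f) g = fis f (lap g) := by
  unfold rsq lap
  rw [Finset.sum_mul, fis_sum_left, fis_sum_right]
  refine Finset.sum_congr rfl fun i _ => ?_
  rw [sq, mul_assoc, fis_X_mul, fis_X_mul]

lemma pderiv_comm (i j : Fin n) (f : Pol n) : pderiv i (pderiv j f) = pderiv j (pderiv i f) := by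
  classical
  have h : ∀ g f : Pol n, fis g (pderiv i (pderiv j f)) = fis g (pderiv j (pderiv i f)) := by
    intro g f
    rw [← fis_X_mul, ← fis_X_mul, ← fis_X_mul, ← fis_X_mul, ← mul_assoc, ← mul_assoc,
      mul_comm (X i)]
  have h2 : fis (pderiv i (pderiv j f) - pderiv j (pderiv i f))
      (pderiv i (pderiv j f) - pderiv j (pderiv i f)) = 0 := by
    rw [fis_sub_right, h]; ring
  exact sub_eq_zero.1 (fis_self_eq_zero h2)

lemma lap_pderiv (i : Fin n) (f : Pol n) : lap (pderiv i f) = pderiv i (lap f) := by
  unfold lap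
  rw [map_sum]
  refine Finset.sum_congr rfl fun j _ => ?_
  rw [pderiv_comm j i f, pderiv_comm j i]

lemma lap_X_mul (i : Fin n) (f : Pol n) : lap (X i * f) = X i * lap f + 2 * pderiv i f := by
  classical
  unfold lap
  have h : ∀ j : Fin n, pderiv j (pderiv j (X i * f)) = X i * pderiv j (pderiv j f) +
      (if j = i then 2 * pderiv i f else 0) := by
    intro j
    rw [pderiv_mul, pderiv_X, map_add, pderiv_mul, pderiv_mul, pderiv_X]
    by_cases hj : j = i
    · subst hj
      simp
      ring
    · rw [if_neg hj, Pi.single_eq_of_ne (Ne.symm hj)]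
      simp
  rw [Finset.sum_congr rfl fun j _ => h j, Finset.sum_add_distrib, ← Finset.mul_sum,
    Finset.sum_ite_eq' univ i (fun _ => 2 * pderiv i f), if_pos (Finset.mem_univ i)]

/-- Euler's relation -/
theorem euler {j : ℕ} {f : Pol n} (hf : f.IsHomogeneous j) :
    ∑ i, X i * pderiv i f = (j : ℝ) • f := by
  have := hf.sum_X_mul_pderiv
  rw [this, Nat.cast_smul_eq_nsmul]

end Pool.Agent.Helper11.SB.Fischer
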