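import Pool.Agent.Helper11.SB.Asym

/-!
Hermite's constant and spherical codes.
-/

set_option autoImplicit false

open MeasureTheory Set Metric Filter Topology
open scoped RealInnerProductSpace ENNReal

namespace Pool.Agent.Helper11.SB

/-- the squared length of the shortest nonzero vector of the lattice `A ℤ^n` -/
noncomputable def minSq {n : ℕ} (A : Matrix (Fin n) (Fin n) ℝ) : ℝ :=
  ⨅ w : {w : Fin n → ℤ // w ≠ 0}, ∑ i, (Matrix.mulVec A (fun j => (w.1 j : ℝ))) i ^ 2

/-- Hermite's constant -/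
noncomputable def hermite (n : ℕ) : ℝ :=
  ⨆ A : {A : Matrix (Fin n) (Fin n) ℝ // A.det ≠ 0}, minSq A.1 / |A.1.det| ^ ((2 : ℝ) / (n : ℝ))

section

variable {n : ℕ} (A : Matrix (Fin n) (Fin n) ℝ) (hA : A.det ≠ 0)

/-- the basis of the columns of `A` -/
noncomputable def colBasis : Module.Basis (Fin n) ℝ (Fin n → ℝ) :=
  (Pi.basisFun ℝ (Fin n)).map
    (Matrix.toLinearEquiv' A ((Matrix.isUnit_iff_isUnit_det _).2 (isUnit_iff_ne_zero.2 hA)).invertible)

lemma colBasis_apply (j : Fin n) : colBasis A hA j = A.mulVec (Pi.single j 1) := by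
  rw [colBasis, Module.Basis.map_apply, Pi.basisFun_apply]
  rfl

lemma volume_colBasis : volume (ZSpan.fundamentalDomain (colBasis A hA)) =
    ENNReal.ofReal |A.det| := by
  rw [ZSpan.volume_fundamentalDomain]
  congr 2
  have : Matrix.of (colBasis A hA) = A.transpose := by
    ext i j
    rw [Matrix.of_apply, colBasis_apply, Matrix.mulVec_single_one]
    rfl
  rw [this, Matrix.det_transpose]

lemma mem_lattice {g : Fin n → ℝ} (hg : g ∈ Submodule.span ℤ (Set.range (colBasis A hA))) :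
    ∃ w : Fin n → ℤ, g = A.mulVec (fun j => (w j : ℝ)) := by
  obtain ⟨w, hw⟩ := (Submodule.mem_span_range_iff_exists_fun ℤ).1 hg
  refine ⟨w, ?_⟩
  rw [← hw]
  ext i
  rw [Finset.sum_apply, Matrix.mulVec, dotProduct]
  refine Finset.sum_congr rfl fun j _ => ?_
  rw [Pi.smul_apply, colBasis_apply, Matrix.mulVec_single_one, zsmul_eq_mul, mul_comm]
  rfl

include hA in
lemma lattice_bound {σ B m : ℝ} (hσ : 0 < σ) (hm : 0 < m)
    (hB : ∀ C' : Finset (EuclideanSpace ℝ (Fin (n + 1))), IsCode (n + 1) (1 - 2 * σ ^ 2) C' →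
      (C'.card : ℝ) ≤ B)
    (hmin : ∀ w : Fin n → ℤ, w ≠ 0 → m ≤ ∑ i, (A.mulVec (fun j => (w j : ℝ))) i ^ 2) :
    volume (ball (0 : EuclideanSpace ℝ (Fin n)) (Real.sqrt m / 2 / σ)) ≤
      ENNReal.ofReal (B * |A.det|) := by
  classical
  have hB0 : 0 ≤ B := by
    have := hB ∅ ⟨by simp, by simp⟩
    simpa using this
  set b := colBasis A hA with hb
  set r := Real.sqrt m / 2 with hr
  have hr0 : 0 < r := by rw [hr]; have := Real.sqrt_pos.2 hm; positivity
  set S : Set (Fin n → ℝ) := (WithLp.toLp 2) ⁻¹' (ball (0 : EuclideanSpace ℝ (Fin n)) (r / σ))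
    with hS
  have hSm : MeasurableSet S :=
    (PiLp.volume_preserving_toLp (Fin n)).measurable measurableSet_ball
  have hvS : volume S = volume (ball (0 : EuclideanSpace ℝ (Fin n)) (r / σ)) :=
    (PiLp.volume_preserving_toLp (Fin n)).measure_preimage measurableSet_ball.nullMeasurableSet
  have : Countable (Submodule.span ℤ (Set.range b)).toAddSubgroup :=
    inferInstanceAs (Countable (Submodule.span ℤ (Set.range b)))
  have hfd := ZSpan.isAddFundamentalDomain' b (volume : Measure (Fin n → ℝ))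
  have h1 : volume S = ∫⁻ x, S.indicator (fun _ => (1 : ℝ≥0∞)) x := by
    rw [lintegral_indicator_const hSm, one_mul]
  have hmeas : Measurable (S.indicator (fun _ => (1 : ℝ≥0∞))) := measurable_const.indicator hSm
  rw [← hvS, h1, hfd.lintegral_eq_tsum', ← lintegral_tsum]
  · calc ∫⁻ x in ZSpan.fundamentalDomain b,
          ∑' g : (Submodule.span ℤ (Set.range b)).toAddSubgroup,
            S.indicator (fun _ => (1 : ℝ≥0∞)) (-g +ᵥ x)
        ≤ ∫⁻ x in ZSpan.fundamentalDomain b, ENNReal.ofReal B := by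
          apply lintegral_mono
          intro x
          show ∑' g : (Submodule.span ℤ (Set.range b)).toAddSubgroup,
            S.indicator (fun _ => (1 : ℝ≥0∞)) (-g +ᵥ x) ≤ _
          rw [ENNReal.tsum_eq_iSup_sum]
          apply iSup_le
          intro s
          set s' := s.filter (fun g : (Submodule.span ℤ (Set.range b)).toAddSubgroup => -g +ᵥ x ∈ S) with hs'
          have e1 : ∑ g ∈ s, S.indicator (fun _ => (1 : ℝ≥0∞)) (-g +ᵥ x) = (s'.card : ℝ≥0∞) := by
            rw [Finset.card_eq_sum_ones, Nat.cast_sum, Finset.sum_filter]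
            refine Finset.sum_congr rfl fun g _ => ?_
            rw [indicator_apply]
            split_ifs <;> simp
          rw [e1]
          set f : (Submodule.span ℤ (Set.range b)).toAddSubgroup → EuclideanSpace ℝ (Fin n) :=
            fun g => WithLp.toLp 2 (g : Fin n → ℝ) with hf
          have hfinj : Function.Injective f := by
            intro g g' h
            apply Subtype.ext
            exact WithLp.toLp_injective 2 h
          have hdist : ∀ g g', g ≠ g' → 2 * r ≤ dist (f g) (f g') := by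
            intro g g' hne
            obtain ⟨w, hw⟩ := mem_lattice A hA (g - g').2
            have hw0 : w ≠ 0 := by
              rintro rfl
              apply hne
              have h3 : ((g - g' : (Submodule.span ℤ (Set.range b)).toAddSubgroup) : Fin n → ℝ)
                  = 0 := by
                rw [hw]
                simp [← Pi.zero_def]
              have h4 : g - g' = 0 := Subtype.ext h3
              exact sub_eq_zero.1 h4
            have h3 := hmin w hw0
            rw [← hw] at h3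
            have h4 : dist (f g) (f g') ^ 2 = ∑ i,
                ((g - g' : (Submodule.span ℤ (Set.range b)).toAddSubgroup) : Fin n → ℝ) i ^ 2 := by
              rw [EuclideanSpace.dist_eq, Real.sq_sqrt (by positivity)]
              refine Finset.sum_congr rfl fun i _ => ?_
              rw [Real.dist_eq, sq_abs]
              rfl
            rw [← h4] at h3
            have h5 : 2 * r = Real.sqrt m := by rw [hr]; ring
            rw [h5]
            exact (Real.sqrt_le_left dist_nonneg).2 h3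
          have h6 := card_ball_le hσ hr0 hB (WithLp.toLp 2 x) (s'.image f) (by
            intro y hy
            obtain ⟨g, hg, rfl⟩ := Finset.mem_image.1 hy
            have h7 : -g +ᵥ x ∈ S := (Finset.mem_filter.1 hg).2
            have h8 : WithLp.toLp 2 (-g +ᵥ x) ∈ ball (0 : EuclideanSpace ℝ (Fin n)) (r / σ) := h7
            rw [mem_ball, dist_zero_right] at h8
            have h9 : WithLp.toLp 2 (-g +ᵥ x) = WithLp.toLp 2 x - f g := by
              ext i
              simp [hf, AddSubgroup.vadd_def]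
              ring
            rw [h9] at h8
            rw [dist_comm, dist_eq_norm]
            exact h8.le) (by
            intro y hy y' hy' hne
            obtain ⟨g, hg, rfl⟩ := Finset.mem_image.1 hy
            obtain ⟨g', hg', rfl⟩ := Finset.mem_image.1 hy'
            exact hdist g g' (fun h => hne (by rw [h])))
          rw [Finset.card_image_of_injective _ hfinj] at h6
          rw [← ENNReal.ofReal_natCast]
          exact ENNReal.ofReal_le_ofReal h6
      _ = _ := by
          rw [setLIntegral_const, volume_colBasis, ← ENNReal.ofReal_mul hB0]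
  · intro g
    exact (hmeas.comp (measurable_const_vadd (-g))).aemeasurable

end

lemma gamma_le {x ε : ℝ} (hx : 0 < x) (hε : 0 < ε) (hε1 : ε < 1) :
    Real.Gamma (x + 1) ≤ (x / (Real.exp 1 * (1 - ε))) ^ x / ε := by
  have h1 : 0 < 1 - ε := by linarith
  set K := (x / (Real.exp 1 * (1 - ε))) ^ x with hK
  have hpt : ∀ t : ℝ, 0 < t → Real.exp (-t) * t ^ x ≤ K * Real.exp (-ε * t) := by
    intro t ht
    have hu : 0 < (1 - ε) * t / x := by positivity
    have h2 := Real.log_le_sub_one_of_pos hu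
    rw [Real.log_div (by positivity) hx.ne', Real.log_mul h1.ne' ht.ne'] at h2
    have h3 : x * (Real.log (1 - ε) + Real.log t - Real.log x) ≤ (1 - ε) * t - x := by
      calc x * (Real.log (1 - ε) + Real.log t - Real.log x) ≤ x * ((1 - ε) * t / x - 1) := by
            gcongr
        _ = (1 - ε) * t - x := by field_simp
    rw [hK, Real.rpow_def_of_pos ht, Real.rpow_def_of_pos (by positivity), ← Real.exp_add,
      ← Real.exp_add, Real.exp_le_exp, Real.log_div hx.ne' (by positivity),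
      Real.log_mul (Real.exp_pos 1).ne' h1.ne', Real.log_exp]
    nlinarith
  rw [Real.Gamma_eq_integral (by linarith), add_sub_cancel_right]
  have h4 : ∫ t in Ioi (0 : ℝ), K * Real.exp (-ε * t) = K / ε := by
    rw [integral_const_mul, integral_exp_mul_Ioi (by linarith)]
    simp
    field_simp
  rw [← h4]
  apply setIntegral_mono_on
  · have := Real.GammaIntegral_convergent (s := x + 1) (by linarith)
    rwa [add_sub_cancel_right] at this
  · exact (integrableOn_exp_mul_Ioi (by linarith) 0).const_mul K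
  · exact measurableSet_Ioi
  · intro t ht
    exact hpt t ht

lemma hermite_le {n : ℕ} (hn : 1 ≤ n) {σ B : ℝ} (hσ : 0 < σ) (hB0 : 0 < B)
    (hB : ∀ C' : Finset (EuclideanSpace ℝ (Fin (n + 1))), IsCode (n + 1) (1 - 2 * σ ^ 2) C' →
      (C'.card : ℝ) ≤ B) :
    hermite n ≤ 4 * σ ^ 2 / Real.pi * (B * Real.Gamma ((n : ℝ) / 2 + 1)) ^ ((2 : ℝ) / (n : ℝ)) := by
  have hG : 0 < Real.Gamma ((n : ℝ) / 2 + 1) := Real.Gamma_pos_of_pos (by positivity)
  have hrhs : 0 ≤ 4 * σ ^ 2 / Real.pi *
      (B * Real.Gamma ((n : ℝ) / 2 + 1)) ^ ((2 : ℝ) / (n : ℝ)) := by positivity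
  have hn0 : (0 : ℝ) < n := by exact_mod_cast hn
  have : Nonempty (Fin n) := ⟨⟨0, by omega⟩⟩
  unfold hermite
  have : Nonempty {A : Matrix (Fin n) (Fin n) ℝ // A.det ≠ 0} := ⟨⟨1, by simp⟩⟩
  apply ciSup_le
  rintro ⟨A, hA⟩
  have hdet : 0 < |A.det| := abs_pos.2 hA
  show minSq A / |A.det| ^ ((2 : ℝ) / (n : ℝ)) ≤ _
  rcases le_or_gt (minSq A) 0 with hm | hm
  · exact (div_nonpos_of_nonpos_of_nonneg hm (by positivity)).trans hrhs
  have hmin : ∀ w : Fin n → ℤ, w ≠ 0 →
      minSq A ≤ ∑ i, (A.mulVec (fun j => (w j : ℝ))) i ^ 2 := by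
    intro w hw
    exact ciInf_le (f := fun w : {w : Fin n → ℤ // w ≠ 0} =>
      ∑ i, (Matrix.mulVec A (fun j => (w.1 j : ℝ))) i ^ 2)
      ⟨0, by rintro _ ⟨w, rfl⟩; positivity⟩ ⟨w, hw⟩
  have h1 := lattice_bound A hA hσ hm hB hmin
  rw [EuclideanSpace.volume_ball, Fintype.card_fin, ← ENNReal.ofReal_pow (by positivity),
    ← ENNReal.ofReal_mul (by positivity), ENNReal.ofReal_le_ofReal_iff (by positivity)] at h1
  have h2 : (Real.sqrt (minSq A) / 2 / σ * Real.sqrt Real.pi) ^ n ≤
      B * Real.Gamma ((n : ℝ) / 2 + 1) * |A.det| := by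
    rw [mul_pow]
    rw [← mul_div_assoc, div_le_iff₀ hG] at h1
    linarith
  have h3 : (Real.sqrt (minSq A) / 2 / σ * Real.sqrt Real.pi) ^ 2 ≤
      (B * Real.Gamma ((n : ℝ) / 2 + 1)) ^ ((2 : ℝ) / (n : ℝ)) * |A.det| ^ ((2 : ℝ) / (n : ℝ)) := by
    rw [← Real.mul_rpow (by positivity) hdet.le]
    calc (Real.sqrt (minSq A) / 2 / σ * Real.sqrt Real.pi) ^ 2
        = ((Real.sqrt (minSq A) / 2 / σ * Real.sqrt Real.pi) ^ n) ^ ((2 : ℝ) / (n : ℝ)) := by
          rw [← Real.rpow_natCast, ← Real.rpow_natCast, ← Real.rpow_mul (by positivity)]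
          congr 1
          field_simp
          norm_num
      _ ≤ _ := by
          apply Real.rpow_le_rpow (by positivity) h2 (by positivity)
  rw [mul_pow, div_pow, div_pow, Real.sq_sqrt hm.le, Real.sq_sqrt Real.pi_pos.le] at h3
  rw [div_le_iff₀ (by positivity)]
  have h4 : minSq A = 4 * σ ^ 2 / Real.pi * (minSq A / 2 ^ 2 / σ ^ 2 * Real.pi) := by
    have := Real.pi_pos
    field_simp
    norm_num
  rw [h4, mul_assoc]
  gcongr

/-- **Hermite's constant.** -/
theorem hermite_of_codes {σ κ K : ℝ} (hσ : 0 < σ)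
    (H : ∀ᶠ d : ℕ in atTop, ∀ C : Finset (EuclideanSpace ℝ (Fin d)),
      IsCode d (1 - 2 * σ ^ 2) C → (C.card : ℝ) ≤ 2 ^ (κ * d))
    (hK : 4 * σ ^ 2 * 2 ^ (2 * κ) / (2 * Real.pi * Real.exp 1) < K) :
    ∀ᶠ n : ℕ in atTop, hermite n / n ≤ K := by
  have H1 := (tendsto_add_atTop_nat 1).eventually H
  set c0 := 4 * σ ^ 2 * 2 ^ (2 * κ) / (2 * Real.pi * Real.exp 1) with hc0
  have hc0p : 0 < c0 := by rw [hc0]; positivity
  obtain ⟨ε, hε, hε1, hε2⟩ : ∃ ε : ℝ, 0 < ε ∧ ε < 1 ∧ c0 / (1 - ε) < K := by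
    have h1 : Tendsto (fun ε : ℝ => c0 / (1 - ε)) (𝓝[>] 0) (𝓝 (c0 / (1 - 0))) := by
      apply Tendsto.mono_left _ nhdsWithin_le_nhds
      apply Tendsto.div tendsto_const_nhds _ (by norm_num)
      exact (continuous_const.sub continuous_id).tendsto 0
    rw [sub_zero, div_one] at h1
    have h2 := (h1.eventually (gt_mem_nhds hK)).and
      ((eventually_nhdsWithin_of_eventually_nhds (gt_mem_nhds (show (0 : ℝ) < 1 by norm_num))).and
        self_mem_nhdsWithin)
    obtain ⟨ε, h3, h4, h5⟩ := h2.exists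
    exact ⟨ε, h5, h4, h3⟩
  set D : ℝ := 2 ^ (2 * κ) / ε ^ 2 with hD
  have hDp : 0 < D := by rw [hD]; positivity
  have hlim : Tendsto (fun n : ℕ => c0 / (1 - ε) * D ^ ((1 : ℝ) / (n : ℝ))) atTop
      (𝓝 (c0 / (1 - ε))) := by
    have h1 : Tendsto (fun n : ℕ => D ^ ((1 : ℝ) / (n : ℝ))) atTop (𝓝 (D ^ (0 : ℝ))) :=
      Tendsto.rpow tendsto_const_nhds (tendsto_one_div_atTop_nhds_zero_nat (𝕜 := ℝ))
        (Or.inl hDp.ne')
    rw [Real.rpow_zero] at h1
    simpa using h1.const_mul (c0 / (1 - ε))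
  filter_upwards [H1, hlim.eventually (gt_mem_nhds hε2), eventually_ge_atTop 1] with n h1 h2 hn
  have hn0 : (0 : ℝ) < n := by exact_mod_cast hn
  have hε3 : 0 < 1 - ε := by linarith
  refine le_trans ?_ h2.le
  rw [div_le_iff₀ hn0]
  refine (hermite_le hn hσ (by positivity) h1).trans ?_
  have h3 := gamma_le (x := (n : ℝ) / 2) (by positivity) hε hε1
  have hG : 0 < Real.Gamma ((n : ℝ) / 2 + 1) := Real.Gamma_pos_of_pos (by positivity)
  have h4 : (Real.Gamma ((n : ℝ) / 2 + 1)) ^ ((2 : ℝ) / (n : ℝ)) ≤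
      (n : ℝ) / 2 / (Real.exp 1 * (1 - ε)) * (1 / ε ^ 2) ^ ((1 : ℝ) / (n : ℝ)) := by
    calc (Real.Gamma ((n : ℝ) / 2 + 1)) ^ ((2 : ℝ) / (n : ℝ))
        ≤ (((n : ℝ) / 2 / (Real.exp 1 * (1 - ε))) ^ ((n : ℝ) / 2) / ε) ^ ((2 : ℝ) / (n : ℝ)) :=
          Real.rpow_le_rpow hG.le h3 (by positivity)
      _ = _ := by
          rw [Real.div_rpow (by positivity) hε.le, ← Real.rpow_mul (by positivity)]
          have e1 : (n : ℝ) / 2 * (2 / (n : ℝ)) = 1 := by field_simp
          have e2 : (1 / ε ^ 2) ^ ((1 : ℝ) / (n : ℝ)) = 1 / ε ^ ((2 : ℝ) / (n : ℝ)) := by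
            rw [Real.div_rpow (by norm_num) (by positivity), Real.one_rpow, ← Real.rpow_natCast,
              ← Real.rpow_mul hε.le]
            congr 2
            push_cast
            ring
          rw [e1, Real.rpow_one, e2]
          ring
  have h5 : ((2 : ℝ) ^ (κ * ((n + 1 : ℕ) : ℝ))) ^ ((2 : ℝ) / (n : ℝ)) =
      2 ^ (2 * κ) * (2 ^ (2 * κ)) ^ ((1 : ℝ) / (n : ℝ)) := by
    rw [← Real.rpow_mul (by norm_num), ← Real.rpow_mul (by norm_num),
      ← Real.rpow_add (by norm_num)]
    congr 1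
    push_cast
    field_simp
  have hB0 : (0 : ℝ) < 2 ^ (κ * ((n + 1 : ℕ) : ℝ)) := by positivity
  rw [Real.mul_rpow hB0.le hG.le, h5]
  calc 4 * σ ^ 2 / Real.pi * (2 ^ (2 * κ) * (2 ^ (2 * κ)) ^ ((1 : ℝ) / (n : ℝ)) *
        (Real.Gamma ((n : ℝ) / 2 + 1)) ^ ((2 : ℝ) / (n : ℝ)))
      ≤ 4 * σ ^ 2 / Real.pi * (2 ^ (2 * κ) * (2 ^ (2 * κ)) ^ ((1 : ℝ) / (n : ℝ)) *
        ((n : ℝ) / 2 / (Real.exp 1 * (1 - ε)) * (1 / ε ^ 2) ^ ((1 : ℝ) / (n : ℝ)))) := by
        gcongr
    _ = c0 / (1 - ε) * D ^ ((1 : ℝ) / (n : ℝ)) * n := by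
        have e1 : D ^ ((1 : ℝ) / (n : ℝ)) =
            (2 ^ (2 * κ)) ^ ((1 : ℝ) / (n : ℝ)) * (1 / ε ^ 2) ^ ((1 : ℝ) / (n : ℝ)) := by
          rw [← Real.mul_rpow (by positivity) (by positivity), hD]
          congr 1
          ring
        rw [e1, hc0]
        have := Real.pi_pos
        have := Real.exp_pos 1
        field_simp

end Pool.Agent.Helper11.SB
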