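import Pool.Agent.Helper11.SB.Asym

/-!
Kissing numbers and packing densities in terms of spherical codes.
-/

set_option autoImplicit false

open MeasureTheory Set Metric Filter Topology
open scoped RealInnerProductSpace ENNReal

namespace Pool.Agent.Helper11.SB

/-- The kissing number of the unit ball of `ℝ^d`: the largest number of unit balls that touch the
unit ball around the origin and have pairwise disjoint interiors; their centres have norm `2` and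
pairwise distances at least `2`. -/
noncomputable def tau (d : ℕ) : ℕ :=
  sSup {N : ℕ | ∃ C : Finset (EuclideanSpace ℝ (Fin d)), C.card = N ∧ (∀ x ∈ C, ‖x‖ = 2) ∧
    ∀ x ∈ C, ∀ y ∈ C, x ≠ y → 2 ≤ dist x y}

lemma kiss_isCode {d : ℕ} {C : Finset (EuclideanSpace ℝ (Fin d))} (h1 : ∀ x ∈ C, ‖x‖ = 2)
    (h2 : ∀ x ∈ C, ∀ y ∈ C, x ≠ y → 2 ≤ dist x y) :
    ∃ C' : Finset (EuclideanSpace ℝ (Fin d)), C'.card = C.card ∧ IsCode d (1 / 2) C' := by
  classical
  have hinj : Function.Injective (fun x : EuclideanSpace ℝ (Fin d) => (2⁻¹ : ℝ) • x) :=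
    smul_right_injective _ (by norm_num)
  refine ⟨C.image fun x => (2⁻¹ : ℝ) • x, Finset.card_image_of_injective _ hinj, ?_, ?_⟩
  · intro x' hx'
    obtain ⟨x, hx, rfl⟩ := Finset.mem_image.1 hx'
    rw [norm_smul, h1 x hx]
    norm_num
  · intro x' hx' y' hy' hne
    obtain ⟨x, hx, rfl⟩ := Finset.mem_image.1 hx'
    obtain ⟨y, hy, rfl⟩ := Finset.mem_image.1 hy'
    have hxy : x ≠ y := fun h => hne (by rw [h])
    have h3 := h2 x hx y hy hxy
    have h4 : dist x y ^ 2 = ‖x‖ ^ 2 - 2 * ⟪x, y⟫ + ‖y‖ ^ 2 := by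
      rw [dist_eq_norm]; exact norm_sub_sq_real x y
    rw [h1 x hx, h1 y hy] at h4
    rw [real_inner_smul_left, real_inner_smul_right]
    nlinarith [pow_le_pow_left₀ (by norm_num : (0 : ℝ) ≤ 2) h3 2]

lemma tau_le {d : ℕ} {B : ℝ}
    (hB : ∀ C : Finset (EuclideanSpace ℝ (Fin d)), IsCode d (1 / 2) C → (C.card : ℝ) ≤ B) :
    (tau d : ℝ) ≤ B := by
  have hB' : ∀ N ∈ {N : ℕ | ∃ C : Finset (EuclideanSpace ℝ (Fin d)), C.card = N ∧
      (∀ x ∈ C, ‖x‖ = 2) ∧ ∀ x ∈ C, ∀ y ∈ C, x ≠ y → 2 ≤ dist x y}, (N : ℝ) ≤ B := by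
    rintro N ⟨C, rfl, h1, h2⟩
    obtain ⟨C', h3, h4⟩ := kiss_isCode h1 h2
    rw [← h3]
    exact hB C' h4
  apply hB'
  apply Nat.sSup_mem
  · exact ⟨0, ∅, by simp, by simp, by simp⟩
  · refine ⟨⌊B⌋₊, fun N hN => Nat.le_floor (hB' N hN)⟩

lemma one_le_tau {d : ℕ} (hd : 1 ≤ d) {B : ℝ}
    (hB : ∀ C : Finset (EuclideanSpace ℝ (Fin d)), IsCode d (1 / 2) C → (C.card : ℝ) ≤ B) :
    1 ≤ tau d := by
  have : NeZero d := ⟨by omega⟩
  apply le_csSup
  · refine ⟨⌊B⌋₊, ?_⟩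
    rintro N ⟨C, rfl, h1, h2⟩
    obtain ⟨C', h3, h4⟩ := kiss_isCode h1 h2
    rw [← h3]
    exact Nat.le_floor (hB C' h4)
  · refine ⟨{EuclideanSpace.single (0 : Fin d) (2 : ℝ)}, by simp, by simp, ?_⟩
    intro x hx y hy hne
    rw [Finset.mem_singleton] at hx hy
    exact absurd (hx.trans hy.symm) hne

/-- the exponent of the kissing numbers -/
theorem kissing_of_codes {c κ κ' : ℝ} (hc0 : 0 ≤ c) (hc : c < 1)
    (H : ∀ᶠ d : ℕ in atTop, ∀ C : Finset (EuclideanSpace ℝ (Fin d)),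
      IsCode d ((1 / 2 - c ^ 2) / (1 - c ^ 2)) C → (C.card : ℝ) ≤ 2 ^ (κ * d))
    (hκ : κ - Real.logb 2 (1 - c ^ 2) / 2 < κ') :
    (∀ᶠ d : ℕ in atTop, (tau d : ℝ) ≤ 2 ^ (κ' * d)) ∧
    limsup (fun d : ℕ => Real.logb 2 (tau d) / d) atTop ≤ κ' := by
  have H2 := codes_of_codes (s := 1 / 2) (by norm_num) hc0 hc H hκ
  have H3 : ∀ᶠ d : ℕ in atTop, (tau d : ℝ) ≤ 2 ^ (κ' * d) := by
    filter_upwards [H2] with d hd
    exact tau_le hd
  refine ⟨H3, ?_⟩
  apply limsup_le_of_le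
  · apply IsBoundedUnder.isCoboundedUnder_le
    refine ⟨0, ?_⟩
    rw [eventually_map]
    filter_upwards [H2, eventually_ge_atTop 1] with d hd hd1
    have h1 := one_le_tau hd1 hd
    have h2 : 0 ≤ Real.logb 2 (tau d) := Real.logb_nonneg (by norm_num) (by exact_mod_cast h1)
    positivity
  · filter_upwards [H2, H3, eventually_ge_atTop 1] with d hd h3 hd1
    have h1 := one_le_tau hd1 hd
    have hd0 : (0 : ℝ) < d := by exact_mod_cast hd1
    rw [div_le_iff₀ hd0]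
    rw [Real.logb_le_iff_le_rpow (by norm_num) (by exact_mod_cast h1)]
    exact h3

/-- `E` is a sphere packing: the union of a set of pairwise disjoint open balls of the same
radius. -/
def IsPacking {n : ℕ} (E : Set (EuclideanSpace ℝ (Fin n))) : Prop :=
  ∃ (X : Set (EuclideanSpace ℝ (Fin n))) (r : ℝ), 0 < r ∧
    X.PairwiseDisjoint (fun x => ball x r) ∧ E = ⋃ x ∈ X, ball x r

/-- the packing constant `ρ_n^*` -/
noncomputable def rho (n : ℕ) : ℝ≥0∞ :=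
  ⨆ (E : Set (EuclideanSpace ℝ (Fin n))) (_ : IsPacking E), upDens E

/-- the exponent of the packing densities -/
theorem rho_of_codes {σ κ κ' : ℝ} (hσ : 0 < σ)
    (H : ∀ᶠ d : ℕ in atTop, ∀ C : Finset (EuclideanSpace ℝ (Fin d)),
      IsCode d (1 - 2 * σ ^ 2) C → (C.card : ℝ) ≤ 2 ^ (κ * d))
    (hκ : κ + Real.logb 2 σ < κ') :
    ∀ᶠ n : ℕ in atTop, rho n ≤ ENNReal.ofReal (2 ^ (κ' * n)) := by
  filter_upwards [packing_of_codes hσ H hκ] with n hn
  apply iSup₂_le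
  rintro E ⟨X, r, hr, hX, rfl⟩
  exact hn X r hr hX

end Pool.Agent.Helper11.SB
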