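import Pool.Agent.Helper47.KP.FH

/-!
Schoenberg's theorem (the Gegenbauer kernels are positive definite) and Delsarte's linear
programming bound for spherical codes.  `PP d k` is the Gegenbauer polynomial of `S^(d-1)`
normalised by `PP d k (1) = 1`.
-/

set_option autoImplicit false

open MeasureTheory Set Metric Polynomial
open scoped RealInnerProductSpace ENNReal

namespace Pool.Agent.Helper11.SB

open Pool.Agent.Helper47.KP

variable {d : ℕ}

lemma nrm_pos [NeZero d] (hd : 3 ≤ d) (j : ℕ) : 0 < nrm d j := by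
  have hne : Nonempty (Sph d) := by
    refine ⟨⟨EuclideanSpace.single (0 : Fin d) (1 : ℝ), by simp⟩⟩
  obtain ⟨x⟩ := hne
  rw [← zon_eq_nrm hd x]
  exact zon_norm_pos hd x j

/-- **Schoenberg.** -/
theorem schoenberg [NeZero d] (hd : 3 ≤ d) (j : ℕ) {ι : Type*} (s : Finset ι) (c : ι → ℝ)
    (x : ι → Sph d) :
    0 ≤ ∑ a ∈ s, ∑ b ∈ s, c a * c b * (PP d j).eval ⟪(x a : EE d), (x b : EE d)⟫ := by
  have hn := nrm_pos hd j (d := d)
  have h1 : nrm d j * ∑ a ∈ s, ∑ b ∈ s, c a * c b * (PP d j).eval ⟪(x a : EE d), (x b : EE d)⟫ =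
      ∫ z : Sph d, (∑ a ∈ s, c a * (PP d j).eval ⟪(x a : EE d), (z : EE d)⟫) ^ 2 ∂(sig d) := by
    have e1 : ∀ z : Sph d, (∑ a ∈ s, c a * (PP d j).eval ⟪(x a : EE d), (z : EE d)⟫) ^ 2 =
        ∑ a ∈ s, ∑ b ∈ s, c a * c b * ((PP d j).eval ⟪(x a : EE d), (z : EE d)⟫ *
          (PP d j).eval ⟪(x b : EE d), (z : EE d)⟫) := by
      intro z
      rw [sq, Finset.sum_mul_sum]
      refine Finset.sum_congr rfl fun a _ => Finset.sum_congr rfl fun b _ => ?_
      ring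
    simp only [e1]
    have hint : ∀ a b, Integrable (fun z : Sph d => c a * c b *
        ((PP d j).eval ⟪(x a : EE d), (z : EE d)⟫ *
          (PP d j).eval ⟪(x b : EE d), (z : EE d)⟫)) (sig d) := by
      intro a b
      apply integrable_of_continuous
      exact continuous_const.mul ((continuous_eval _ _).mul (continuous_eval _ _))
    rw [integral_finsetSum _ (fun a _ => integrable_finsetSum _ (fun b _ => hint a b)),
      Finset.mul_sum]
    refine Finset.sum_congr rfl fun a _ => ?_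
    rw [integral_finsetSum _ (fun b _ => hint a b), Finset.mul_sum]
    refine Finset.sum_congr rfl fun b _ => ?_
    rw [integral_const_mul]
    have h2 := conv_eq hd j (x a) (x b)
    unfold conv at h2
    rw [h2]
    ring
  have h2 : 0 ≤ nrm d j * ∑ a ∈ s, ∑ b ∈ s,
      c a * c b * (PP d j).eval ⟪(x a : EE d), (x b : EE d)⟫ := by
    rw [h1]
    exact integral_nonneg fun z => sq_nonneg _
  exact nonneg_of_mul_nonneg_right h2 hn

/-- **Delsarte's linear programming bound for spherical codes.** -/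
theorem lp_bound (hd : 3 ≤ d) (N : ℕ) (f : ℕ → ℝ) (hf : ∀ k < N, 0 ≤ f k) (hN : 0 < N)
    (s : ℝ) (hF : ∀ t : ℝ, -1 ≤ t → t ≤ s → ∑ k ∈ Finset.range N, f k * (PP d k).eval t ≤ 0)
    (C : Finset (EuclideanSpace ℝ (Fin d))) (hC1 : ∀ x ∈ C, ‖x‖ = 1)
    (hC2 : ∀ x ∈ C, ∀ y ∈ C, x ≠ y → ⟪x, y⟫ ≤ s) :
    (C.card : ℝ) * f 0 ≤ ∑ k ∈ Finset.range N, f k := by
  have : NeZero d := ⟨by omega⟩
  classical
  rcases C.eq_empty_or_nonempty with rfl | hne
  · simp only [Finset.card_empty, Nat.cast_zero, zero_mul]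
    exact Finset.sum_nonneg fun k hk => hf k (Finset.mem_range.1 hk)
  have hx0 : Nonempty (Sph d) := by
    obtain ⟨x, hx⟩ := hne
    exact ⟨⟨x, by simpa using hC1 x hx⟩⟩
  obtain ⟨x₀⟩ := hx0
  let x : EE d → Sph d := fun y => if h : ‖y‖ = 1 then ⟨y, by simpa using h⟩ else x₀
  have hx : ∀ y ∈ C, (x y : EE d) = y := by
    intro y hy
    simp only [x, dif_pos (hC1 y hy)]
  set F : ℝ → ℝ := fun t => ∑ k ∈ Finset.range N, f k * (PP d k).eval t with hFdef
  have hF1 : F 1 = ∑ k ∈ Finset.range N, f k := by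
    simp only [hFdef, PP_eval_one hd, mul_one]
  have hpd : ∀ k, 0 ≤ ∑ a ∈ C, ∑ b ∈ C, (PP d k).eval ⟪a, b⟫ := by
    intro k
    have h := schoenberg hd k C (fun _ => 1) x
    have e : ∑ a ∈ C, ∑ b ∈ C, (PP d k).eval ⟪a, b⟫ =
        ∑ a ∈ C, ∑ b ∈ C, (1 : ℝ) * 1 * (PP d k).eval ⟪(x a : EE d), (x b : EE d)⟫ := by
      refine Finset.sum_congr rfl fun a ha => Finset.sum_congr rfl fun b hb => ?_
      rw [hx a ha, hx b hb]; ring
    rw [e]; exact h
  have e1 : ∑ a ∈ C, ∑ b ∈ C, F ⟪a, b⟫ =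
      ∑ k ∈ Finset.range N, f k * ∑ a ∈ C, ∑ b ∈ C, (PP d k).eval ⟪a, b⟫ := by
    simp only [hFdef, Finset.mul_sum]
    have e2 : ∀ a ∈ C, ∑ b ∈ C, ∑ k ∈ Finset.range N, f k * (PP d k).eval ⟪a, b⟫ =
        ∑ k ∈ Finset.range N, ∑ b ∈ C, f k * (PP d k).eval ⟪a, b⟫ := fun a _ => Finset.sum_comm
    rw [Finset.sum_congr rfl e2, Finset.sum_comm]
  -- lower bound
  have h1 : (C.card : ℝ) ^ 2 * f 0 ≤ ∑ a ∈ C, ∑ b ∈ C, F ⟪a, b⟫ := by
    rw [e1]
    have h0 : f 0 * ∑ a ∈ C, ∑ b ∈ C, (PP d 0).eval ⟪a, b⟫ = (C.card : ℝ) ^ 2 * f 0 := by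
      simp only [PP_zero, eval_one, Finset.sum_const, nsmul_eq_mul, mul_one]
      ring
    rw [← h0]
    exact Finset.single_le_sum (f := fun k => f k * ∑ a ∈ C, ∑ b ∈ C, (PP d k).eval ⟪a, b⟫)
      (fun k hk => mul_nonneg (hf k (Finset.mem_range.1 hk)) (hpd k)) (Finset.mem_range.2 hN)
  -- upper bound
  have h2 : ∑ a ∈ C, ∑ b ∈ C, F ⟪a, b⟫ ≤ C.card * F 1 := by
    have h3 : ∀ a ∈ C, ∑ b ∈ C, F ⟪a, b⟫ ≤ F 1 := by
      intro a ha
      rw [← Finset.add_sum_erase C _ ha]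
      have h4 : F ⟪a, a⟫ = F 1 := by
        rw [real_inner_self_eq_norm_sq, hC1 a ha]; norm_num
      rw [h4]
      have h5 : ∑ b ∈ C.erase a, F ⟪a, b⟫ ≤ 0 := by
        apply Finset.sum_nonpos
        intro b hb
        have hb1 := Finset.mem_erase.1 hb
        apply hF
        · have := abs_real_inner_le_norm a b
          rw [hC1 a ha, hC1 b hb1.2, one_mul] at this
          exact (abs_le.1 this).1
        · exact hC2 a ha b hb1.2 (Ne.symm hb1.1)
      linarith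
    calc ∑ a ∈ C, ∑ b ∈ C, F ⟪a, b⟫ ≤ ∑ a ∈ C, F 1 := Finset.sum_le_sum h3
      _ = C.card * F 1 := by rw [Finset.sum_const, nsmul_eq_mul]
  have hcard : (0 : ℝ) < C.card := by exact_mod_cast hne.card_pos
  rw [← hF1]
  have h3 : (C.card : ℝ) * ((C.card : ℝ) * f 0) ≤ C.card * F 1 := by
    calc (C.card : ℝ) * ((C.card : ℝ) * f 0) = (C.card : ℝ) ^ 2 * f 0 := by ring
      _ ≤ _ := h1.trans h2
  exact le_of_mul_le_mul_left h3 hcard

end Pool.Agent.Helper11.SB
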