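import Pool.Agent.Helper11.SB.Cap

/-!
The density of a sphere packing in `ℝ^n` is at most `B σ^n`, where `B` bounds the size of the
spherical codes in `ℝ^(n+1)` with inner products at most `1 - 2 σ²` (Kabatiansky-Levenshtein).
-/

set_option autoImplicit false

open MeasureTheory Set Metric Filter Topology
open scoped RealInnerProductSpace ENNReal

namespace Pool.Agent.Helper11.SB

/-- the upper density of a set -/
noncomputable def upDens {n : ℕ} (A : Set (EuclideanSpace ℝ (Fin n))) : ℝ≥0∞ :=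
  limsup (fun R : ℝ => volume (ball (0 : EuclideanSpace ℝ (Fin n)) R ∩ A) /
    volume (ball (0 : EuclideanSpace ℝ (Fin n)) R)) atTop

/-- lifting a point of the ball of radius `R` around the origin to the unit hemisphere -/
noncomputable def lift1 {n : ℕ} (R : ℝ) (x : EuclideanSpace ℝ (Fin n)) :
    EuclideanSpace ℝ (Fin (n + 1)) :=
  WithLp.toLp 2 (Fin.cons (Real.sqrt (R ^ 2 - ‖x‖ ^ 2) / R) (fun i => x i / R))

lemma inner_lift1 {n : ℕ} {R : ℝ} (hR : 0 < R) (x y : EuclideanSpace ℝ (Fin n)) :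
    ⟪lift1 R x, lift1 R y⟫ = (Real.sqrt (R ^ 2 - ‖x‖ ^ 2) * Real.sqrt (R ^ 2 - ‖y‖ ^ 2) +
      ⟪x, y⟫) / R ^ 2 := by
  rw [PiLp.inner_apply, PiLp.inner_apply, Fin.sum_univ_succ, add_div, Finset.sum_div]
  congr 1
  · simp [lift1]
    field_simp
  · refine Finset.sum_congr rfl fun i _ => ?_
    simp [lift1]
    field_simp

lemma norm_lift1 {n : ℕ} {R : ℝ} (hR : 0 < R) {x : EuclideanSpace ℝ (Fin n)} (hx : ‖x‖ ≤ R) :
    ‖lift1 R x‖ = 1 := by
  have h2 : ‖lift1 R x‖ ^ 2 = 1 := by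
    rw [← real_inner_self_eq_norm_sq, inner_lift1 hR, Real.mul_self_sqrt
      (by nlinarith [norm_nonneg x]), real_inner_self_eq_norm_sq]
    field_simp
    ring
  have h3 : 0 ≤ ‖lift1 R x‖ := norm_nonneg _
  nlinarith

lemma inner_lift1_le {n : ℕ} {R : ℝ} (hR : 0 < R) {x y : EuclideanSpace ℝ (Fin n)}
    (hx : ‖x‖ ≤ R) (hy : ‖y‖ ≤ R) {r : ℝ} (hr : 0 ≤ r) (hxy : 2 * r ≤ dist x y) :
    ⟪lift1 R x, lift1 R y⟫ ≤ 1 - 2 * (r / R) ^ 2 := by
  rw [inner_lift1 hR]
  have h1 : (dist x y) ^ 2 = ‖x‖ ^ 2 - 2 * ⟪x, y⟫ + ‖y‖ ^ 2 := by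
    rw [dist_eq_norm]; exact norm_sub_sq_real x y
  have hsx := Real.sq_sqrt (show 0 ≤ R ^ 2 - ‖x‖ ^ 2 by nlinarith [norm_nonneg x])
  have hsy := Real.sq_sqrt (show 0 ≤ R ^ 2 - ‖y‖ ^ 2 by nlinarith [norm_nonneg y])
  have h2 : (2 * r) ^ 2 ≤ (dist x y) ^ 2 := by
    apply pow_le_pow_left₀ (by linarith) hxy
  rw [div_le_iff₀ (by positivity)]
  have h3 : (1 - 2 * (r / R) ^ 2) * R ^ 2 = R ^ 2 - 2 * r ^ 2 := by
    field_simp
  rw [h3]
  nlinarith [sq_nonneg (Real.sqrt (R ^ 2 - ‖x‖ ^ 2) - Real.sqrt (R ^ 2 - ‖y‖ ^ 2))]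

/-- the number of centres in a ball -/
lemma card_ball_le {n : ℕ} {σ B r : ℝ} (hσ : 0 < σ) (hr : 0 < r)
    (hB : ∀ C' : Finset (EuclideanSpace ℝ (Fin (n + 1))), IsCode (n + 1) (1 - 2 * σ ^ 2) C' →
      (C'.card : ℝ) ≤ B) (z : EuclideanSpace ℝ (Fin n))
    (F : Finset (EuclideanSpace ℝ (Fin n))) (hF : ∀ x ∈ F, dist x z ≤ r / σ)
    (hF2 : ∀ x ∈ F, ∀ y ∈ F, x ≠ y → 2 * r ≤ dist x y) : (F.card : ℝ) ≤ B := by
  classical
  have hR : 0 < r / σ := by positivity
  have hrR : r / (r / σ) = σ := by field_simp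
  have hinner : ∀ x ∈ F, ∀ y ∈ F, x ≠ y →
      ⟪lift1 (r / σ) (x - z), lift1 (r / σ) (y - z)⟫ ≤ 1 - 2 * σ ^ 2 := by
    intro x hx y hy hne
    have := inner_lift1_le hR (x := x - z) (y := y - z) (by rw [← dist_eq_norm]; exact hF x hx)
      (by rw [← dist_eq_norm]; exact hF y hy) hr.le (by
        rw [dist_sub_right]; exact hF2 x hx y hy hne)
    rwa [hrR] at this
  have hnorm : ∀ x ∈ F, ‖lift1 (r / σ) (x - z)‖ = 1 := by
    intro x hx
    exact norm_lift1 hR (by rw [← dist_eq_norm]; exact hF x hx)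
  have hinj : Set.InjOn (fun x => lift1 (r / σ) (x - z)) F := by
    intro x hx y hy hxy
    by_contra hne
    have h2 := hinner x hx y hy hne
    simp only at hxy
    rw [hxy, real_inner_self_eq_norm_sq, hnorm y hy] at h2
    nlinarith
  rw [← Finset.card_image_of_injOn hinj]
  apply hB
  constructor
  · intro x' hx'
    obtain ⟨x, hx, rfl⟩ := Finset.mem_image.1 hx'
    exact hnorm x hx
  · intro x' hx' y' hy' hne
    obtain ⟨x, hx, rfl⟩ := Finset.mem_image.1 hx'
    obtain ⟨y, hy, rfl⟩ := Finset.mem_image.1 hy'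
    exact hinner x hx y hy (fun h => hne (by rw [h]))

/-- averaging over balls -/
lemma count_le {n : ℕ} {σ B r : ℝ} (hσ : 0 < σ) (hr : 0 < r)
    (hB : ∀ C' : Finset (EuclideanSpace ℝ (Fin (n + 1))), IsCode (n + 1) (1 - 2 * σ ^ 2) C' →
      (C'.card : ℝ) ≤ B) {ρ : ℝ}
    (F : Finset (EuclideanSpace ℝ (Fin n))) (hF : ∀ x ∈ F, ‖x‖ < ρ)
    (hF2 : ∀ x ∈ F, ∀ y ∈ F, x ≠ y → 2 * r ≤ dist x y) :
    (F.card : ℝ≥0∞) * volume (ball (0 : EuclideanSpace ℝ (Fin n)) (r / σ)) ≤
      ENNReal.ofReal B * volume (ball (0 : EuclideanSpace ℝ (Fin n)) (ρ + r / σ)) := by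
  classical
  have h1 : (F.card : ℝ≥0∞) * volume (ball (0 : EuclideanSpace ℝ (Fin n)) (r / σ)) =
      ∑ x ∈ F, volume (ball x (r / σ)) := by
    simp only [Measure.addHaar_ball_center]
    rw [Finset.sum_const, nsmul_eq_mul]
  have h2 : ∑ x ∈ F, volume (ball x (r / σ)) =
      ∫⁻ z, ∑ x ∈ F, (ball x (r / σ)).indicator (fun _ => (1 : ℝ≥0∞)) z := by
    rw [lintegral_finsetSum _ (fun x _ => measurable_const.indicator measurableSet_ball)]
    refine Finset.sum_congr rfl fun x _ => ?_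
    rw [lintegral_indicator_const measurableSet_ball, one_mul]
  rw [h1, h2]
  calc ∫⁻ z, ∑ x ∈ F, (ball x (r / σ)).indicator (fun _ => (1 : ℝ≥0∞)) z
      ≤ ∫⁻ z, (ball (0 : EuclideanSpace ℝ (Fin n)) (ρ + r / σ)).indicator
          (fun _ => ENNReal.ofReal B) z := by
        apply lintegral_mono
        intro z
        have e1 : ∑ x ∈ F, (ball x (r / σ)).indicator (fun _ => (1 : ℝ≥0∞)) z =
            ((F.filter fun x => dist x z < r / σ).card : ℝ≥0∞) := by
          rw [Finset.card_eq_sum_ones, Nat.cast_sum, Finset.sum_filter]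
          refine Finset.sum_congr rfl fun x _ => ?_
          rw [indicator_apply, mem_ball, dist_comm]
          split_ifs <;> simp
        show ∑ x ∈ F, (ball x (r / σ)).indicator (fun _ => (1 : ℝ≥0∞)) z ≤ _
        rw [e1]
        by_cases hz : z ∈ ball (0 : EuclideanSpace ℝ (Fin n)) (ρ + r / σ)
        · rw [indicator_of_mem hz]
          have h3 := card_ball_le hσ hr hB z (F.filter fun x => dist x z < r / σ)
            (fun x hx => (Finset.mem_filter.1 hx).2.le)
            (fun x hx y hy => hF2 x (Finset.mem_filter.1 hx).1 y (Finset.mem_filter.1 hy).1)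
          have h4 : ((F.filter fun x => dist x z < r / σ).card : ℝ≥0∞) =
              ENNReal.ofReal ((F.filter fun x => dist x z < r / σ).card : ℝ) := by
            rw [ENNReal.ofReal_natCast]
          rw [h4]
          exact ENNReal.ofReal_le_ofReal h3
        · rw [indicator_of_notMem hz]
          have h5 : F.filter (fun x => dist x z < r / σ) = ∅ := by
            rw [Finset.filter_eq_empty_iff]
            intro x hx hxz
            apply hz
            rw [mem_ball, dist_zero_right]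
            calc ‖z‖ = ‖x - (x - z)‖ := by rw [sub_sub_cancel]
              _ ≤ ‖x‖ + ‖x - z‖ := norm_sub_le _ _
              _ < ρ + r / σ := by rw [← dist_eq_norm]; linarith [hF x hx]
          rw [h5]
          simp
    _ = _ := by
        rw [lintegral_indicator_const measurableSet_ball]

lemma dist_of_disjoint {n : ℕ} {x y : EuclideanSpace ℝ (Fin n)} {r : ℝ}
    (h : Disjoint (ball x r) (ball y r)) : 2 * r ≤ dist x y := by
  by_contra hlt
  rw [not_le] at hlt
  have hm : midpoint ℝ x y ∈ ball x r ∩ ball y r := by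
    constructor
    · rw [mem_ball, dist_midpoint_left, Real.norm_eq_abs]
      norm_num
      linarith
    · rw [mem_ball, dist_midpoint_right, Real.norm_eq_abs]
      norm_num
      linarith
  exact (Set.disjoint_iff.1 h) hm

/-- the volume of the part of a packing in a ball -/
lemma vol_le {n : ℕ} {σ B r : ℝ} (hσ : 0 < σ) (hr : 0 < r)
    (hB : ∀ C' : Finset (EuclideanSpace ℝ (Fin (n + 1))), IsCode (n + 1) (1 - 2 * σ ^ 2) C' →
      (C'.card : ℝ) ≤ B) {X : Set (EuclideanSpace ℝ (Fin n))}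
    (hX : X.PairwiseDisjoint (fun x => ball x r)) {R : ℝ} (hR : 0 < R) :
    volume (ball (0 : EuclideanSpace ℝ (Fin n)) R ∩ ⋃ x ∈ X, ball x r) ≤
      ENNReal.ofReal (B * σ ^ n * ((R + r + r / σ) / R) ^ n) *
        volume (ball (0 : EuclideanSpace ℝ (Fin n)) R) := by
  classical
  have hB0 : 0 ≤ B := by
    have := hB ∅ ⟨by simp, by simp⟩
    simpa using this
  have hd : ∀ x ∈ X, ∀ y ∈ X, x ≠ y → 2 * r ≤ dist x y := fun x hx y hy hne =>
    dist_of_disjoint (hX hx hy hne)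
  set v : ℝ≥0∞ := volume (ball (0 : EuclideanSpace ℝ (Fin n)) 1) with hv
  have hv0 : v ≠ 0 := (measure_ball_pos _ _ one_pos).ne'
  have hvt : v ≠ ∞ := measure_ball_lt_top.ne
  have hvol : ∀ (x : EuclideanSpace ℝ (Fin n)) {s : ℝ}, 0 < s →
      volume (ball x s) = ENNReal.ofReal (s ^ n) * v := by
    intro x s hs
    have := Measure.addHaar_ball_of_pos (volume : Measure (EuclideanSpace ℝ (Fin n))) x hs
    rw [this, finrank_euclideanSpace, Fintype.card_fin]
  set Y : Set (EuclideanSpace ℝ (Fin n)) := {x ∈ X | ‖x‖ < R + r} with hY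
  have hbound : ∀ F : Finset (EuclideanSpace ℝ (Fin n)), (F : Set _) ⊆ Y →
      (F.card : ℝ) * (r / σ) ^ n ≤ B * (R + r + r / σ) ^ n := by
    intro F hF
    have h1 := count_le hσ hr hB (ρ := R + r) F (fun x hx => (hF hx).2)
      (fun x hx y hy => hd x (hF hx).1 y (hF hy).1)
    rw [hvol _ (by positivity), hvol _ (by positivity), ← mul_assoc, ← mul_assoc] at h1
    have h2 := (ENNReal.mul_le_mul_iff_left hv0 hvt).1 h1
    rw [← ENNReal.ofReal_mul hB0, ← ENNReal.ofReal_natCast, ← ENNReal.ofReal_mul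
      (Nat.cast_nonneg _)] at h2
    exact (ENNReal.ofReal_le_ofReal_iff (by positivity)).1 h2
  have hYfin : Y.Finite := by
    by_contra hinf
    obtain ⟨N, hN⟩ := exists_nat_gt (B * (R + r + r / σ) ^ n / (r / σ) ^ n)
    obtain ⟨F, hF1, hF2⟩ := (Set.not_finite.1 hinf : Y.Infinite).exists_subset_card_eq N
    have h1 := hbound F hF1
    rw [hF2] at h1
    rw [div_lt_iff₀ (by positivity)] at hN
    linarith
  set F := hYfin.toFinset with hFdef
  have hsub : ball (0 : EuclideanSpace ℝ (Fin n)) R ∩ ⋃ x ∈ X, ball x r ⊆ ⋃ x ∈ F, ball x r := by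
    rintro z ⟨hz, hz2⟩
    rw [mem_iUnion₂] at hz2 ⊢
    obtain ⟨x, hx, hzx⟩ := hz2
    refine ⟨x, ?_, hzx⟩
    rw [hFdef, Set.Finite.mem_toFinset]
    refine ⟨hx, ?_⟩
    rw [mem_ball, dist_zero_right] at hz
    rw [mem_ball] at hzx
    calc ‖x‖ = ‖z - (z - x)‖ := by rw [sub_sub_cancel]
      _ ≤ ‖z‖ + ‖z - x‖ := norm_sub_le _ _
      _ < R + r := by rw [← dist_eq_norm]; linarith
  have hFc := hbound F (by rw [hFdef, Set.Finite.coe_toFinset])
  calc volume (ball (0 : EuclideanSpace ℝ (Fin n)) R ∩ ⋃ x ∈ X, ball x r)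
      ≤ volume (⋃ x ∈ F, ball x r) := measure_mono hsub
    _ ≤ ∑ x ∈ F, volume (ball x r) := measure_biUnion_finset_le _ _
    _ = ENNReal.ofReal ((F.card : ℝ) * r ^ n) * v := by
        rw [Finset.sum_congr rfl (fun x _ => hvol x hr), Finset.sum_const, nsmul_eq_mul,
          ENNReal.ofReal_mul (Nat.cast_nonneg _), ENNReal.ofReal_natCast, mul_assoc]
    _ ≤ ENNReal.ofReal (B * σ ^ n * ((R + r + r / σ) / R) ^ n * R ^ n) * v := by
        gcongr ENNReal.ofReal ?_ * v
        have h1 : (F.card : ℝ) * r ^ n = (F.card : ℝ) * (r / σ) ^ n * σ ^ n := by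
          rw [div_pow]; field_simp
        have h2 : B * σ ^ n * ((R + r + r / σ) / R) ^ n * R ^ n =
            B * (R + r + r / σ) ^ n * σ ^ n := by
          rw [div_pow]; field_simp
        rw [h1, h2]
        exact mul_le_mul_of_nonneg_right hFc (by positivity)
    _ = _ := by
        rw [hvol 0 hR, ← mul_assoc, ← ENNReal.ofReal_mul (by positivity)]

/-- **The density of a packing.** -/
theorem packing_bound {n : ℕ} {σ B r : ℝ} (hσ : 0 < σ) (hr : 0 < r)
    (hB : ∀ C' : Finset (EuclideanSpace ℝ (Fin (n + 1))), IsCode (n + 1) (1 - 2 * σ ^ 2) C' →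
      (C'.card : ℝ) ≤ B) {X : Set (EuclideanSpace ℝ (Fin n))}
    (hX : X.PairwiseDisjoint (fun x => ball x r)) :
    upDens (⋃ x ∈ X, ball x r) ≤ ENNReal.ofReal (B * σ ^ n) := by
  have hlim : Tendsto (fun R : ℝ => B * σ ^ n * ((R + r + r / σ) / R) ^ n) atTop
      (𝓝 (B * σ ^ n)) := by
    have h1 : Tendsto (fun R : ℝ => (R + r + r / σ) / R) atTop (𝓝 1) := by
      have h2 : Tendsto (fun R : ℝ => 1 + (r + r / σ) / R) atTop (𝓝 (1 + 0)) :=
        tendsto_const_nhds.add (tendsto_const_nhds.div_atTop tendsto_id)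
      rw [add_zero] at h2
      refine h2.congr' ?_
      filter_upwards [eventually_gt_atTop 0] with R hR
      field_simp
      ring
    have h3 := (h1.pow n).const_mul (B * σ ^ n)
    simpa using h3
  have hlim2 := (ENNReal.continuous_ofReal.tendsto _).comp hlim
  rw [← hlim2.limsup_eq]
  apply limsup_le_limsup
  · filter_upwards [eventually_gt_atTop 0] with R hR
    rw [ENNReal.div_le_iff (measure_ball_pos _ _ hR).ne' measure_ball_lt_top.ne]
    exact vol_le hσ hr hB hX hR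
  · isBoundedDefault
  · isBoundedDefault

end Pool.Agent.Helper11.SB
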